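import Mathlib

namespace Pool.Agent.W_MP_818d98_co

/-- The three models of broadcasting with universal lists. -/
inductive Model
  | nonAdaptive
  | adaptive
  | fullyAdaptive

/-- A source-oblivious protocol on `G`: each vertex has one ordered list of distinct neighbours. -/
structure Protocol {V : Type*} (G : SimpleGraph V) where
  list : V → List V
  nodup : ∀ v, (list v).Nodup
  adj : ∀ v, ∀ u ∈ list v, G.Adj v u

/-- The situation at the end of a round: the informed vertices, for each vertex the set of
vertices from which it has received the message, and for each vertex the part of its list that
it has not yet worked through. -/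
structure State (V : Type*) where
  informed : Set V
  received : V → Set V
  rest : V → List V

/-- `Skips m σ v u`: in the situation `σ` the vertex `v` skips the entry `u` of its list. -/
def Skips {V : Type*} (m : Model) (σ : State V) (v u : V) : Prop :=
  match m with
  | Model.nonAdaptive => False
  | Model.adaptive => u ∈ σ.received v
  | Model.fullyAdaptive => u ∈ σ.informed

open Classical in
/-- What remains of the list of `v` once the next entries to be skipped are skipped. -/
noncomputable def pending {V : Type*} (m : Model) (σ : State V) (v : V) : List V :=
  (σ.rest v).dropWhile (fun u => decide (Skips m σ v u))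

/-- `Calls m σ v u`: in the round after `σ` the (informed) vertex `v` calls `u`. -/
def Calls {V : Type*} (m : Model) (σ : State V) (v u : V) : Prop :=
  v ∈ σ.informed ∧ (pending m σ v).head? = some u

open Classical in
/-- The situation one round after `σ`. -/
noncomputable def next {V : Type*} (m : Model) (σ : State V) : State V where
  informed := σ.informed ∪ {u | ∃ v, Calls m σ v u}
  received := fun u => σ.received u ∪ {v | Calls m σ v u}
  rest := fun v => if v ∈ σ.informed then (pending m σ v).tail else σ.rest v

/-- The situation at the end of round `t` when the source is `s`. -/
noncomputable def run {V : Type*} {G : SimpleGraph V} (m : Model) (L : Protocol G) (s : V) :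
    ℕ → State V
  | 0 => ⟨{s}, fun _ => ∅, L.list⟩
  | t + 1 => next m (run m L s t)

/-- `b_m(G, s, L)`: the round by which all vertices are informed (`⊤` if this never happens). -/
noncomputable def completion {V : Type*} {G : SimpleGraph V} (m : Model) (L : Protocol G)
    (s : V) : ℕ∞ :=
  ⨅ (t : ℕ) (_ : (run m L s t).informed = Set.univ), (t : ℕ∞)

/-- `b_m(G)`: the minimum over all protocols of the maximum over all sources. -/
noncomputable def broadcastTime {V : Type*} (m : Model) (G : SimpleGraph V) : ℕ∞ :=
  ⨅ L : Protocol G, ⨆ s : V, completion m L s

end Pool.Agent.W_MP_818d98_co
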