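import Mathlib
import Pool.Agent.W_MP_818d98_co.Defs

namespace Pool.Agent.W_MP_818d98_co

variable {V : Type*} {G : SimpleGraph V}

theorem informed_mono_step (m : Model) (L : Protocol G) (s : V) (t : ℕ) :
    (run m L s t).informed ⊆ (run m L s (t + 1)).informed := by
  intro v hv
  exact Or.inl hv

theorem informed_mono (m : Model) (L : Protocol G) (s : V) {t t' : ℕ} (h : t ≤ t') :
    (run m L s t).informed ⊆ (run m L s t').informed := by
  induction h with
  | refl => exact fun _ h => h
  | step _ ih => exact ih.trans (informed_mono_step m L s _)

theorem source_informed (m : Model) (L : Protocol G) (s : V) (t : ℕ) :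
    s ∈ (run m L s t).informed :=
  informed_mono m L s (Nat.zero_le t) rfl

/-- senders are informed -/
theorem received_subset (m : Model) (L : Protocol G) (s : V) (t : ℕ) (v : V) :
    (run m L s t).received v ⊆ (run m L s t).informed := by
  induction t with
  | zero => intro u hu; exact hu.elim
  | succ t ih =>
    intro u hu
    rcases hu with hu | hu
    · exact Or.inl (ih hu)
    · exact Or.inl hu.1

theorem skips_informed (m : Model) (L : Protocol G) (s : V) (t : ℕ) (v u : V)
    (h : Skips m (run m L s t) v u) : u ∈ (run m L s t).informed := by
  cases m with
  | nonAdaptive => exact h.elim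
  | adaptive => exact received_subset _ L s t v h
  | fullyAdaptive => exact h

theorem exists_dropWhile_eq_drop {α : Type*} (p : α → Bool) (l : List α) :
    ∃ d, l.dropWhile p = l.drop d ∧ (∀ u ∈ l.take d, p u = true) := by
  induction l with
  | nil => exact ⟨0, rfl, by simp⟩
  | cons a l ih =>
    by_cases h : p a = true
    · obtain ⟨d, h1, h2⟩ := ih
      refine ⟨d + 1, ?_, ?_⟩
      · rw [List.dropWhile_cons_of_pos h]; simpa using h1
      · intro u hu
        rw [List.take_succ_cons, List.mem_cons] at hu
        rcases hu with rfl | hu
        · exact h
        · exact h2 u hu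
    · exact ⟨0, by rw [List.dropWhile_cons_of_neg h]; rfl, by simp⟩

/-- The main invariant: what is left of the list of `v` is obtained by dropping a number `d` of
entries, all of which are informed, and `d` grows by at least one per round once `v` is
informed. -/
theorem rest_invariant (m : Model) (L : Protocol G) (s : V) (t : ℕ) (v : V) :
    ∃ d, (run m L s t).rest v = (L.list v).drop d ∧
      (∀ u ∈ (L.list v).take d, u ∈ (run m L s t).informed) ∧
      (∀ r, r ≤ t → v ∈ (run m L s r).informed → t ≤ r + d ∨ (L.list v).length ≤ d) := by
  classical
  induction t with
  | zero =>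
    refine ⟨0, by simp [run], by simp, ?_⟩
    intro r hr _
    left; omega
  | succ t ih =>
    obtain ⟨d, h1, h2, h3⟩ := ih
    by_cases hv : v ∈ (run m L s t).informed
    · obtain ⟨e, he1, he2⟩ := exists_dropWhile_eq_drop
        (fun u => decide (Skips m (run m L s t) v u)) ((run m L s t).rest v)
      have hp : pending m (run m L s t) v = (L.list v).drop (d + e) := by
        unfold pending
        rw [he1, h1, List.drop_drop]
      have hrest : (run m L s (t + 1)).rest v = (L.list v).drop (d + e + 1) := by
        change (if v ∈ (run m L s t).informed then (pending m (run m L s t) v).tail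
          else (run m L s t).rest v) = _
        rw [if_pos hv, hp, List.tail_drop]
      refine ⟨d + e + 1, hrest, ?_, ?_⟩
      · intro u hu
        rw [List.mem_take_iff_getElem] at hu
        obtain ⟨i, hi, rfl⟩ := hu
        by_cases hid : i < d
        · apply informed_mono_step
          apply h2
          rw [List.mem_take_iff_getElem]
          exact ⟨i, by omega, rfl⟩
        · by_cases hie : i < d + e
          · apply informed_mono_step
            have : (L.list v)[i] ∈ ((run m L s t).rest v).take e := by
              rw [h1, List.mem_take_iff_getElem]
              refine ⟨i - d, ?_, ?_⟩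
              · rw [List.length_drop]; omega
              · rw [List.getElem_drop]
                congr 1; omega
            have h4 := he2 _ this
            exact skips_informed m L s t v _ (of_decide_eq_true h4)
          · have hi' : i = d + e := by omega
            subst hi'
            right
            refine ⟨v, hv, ?_⟩
            rw [hp, List.head?_drop]
            rw [List.getElem?_eq_getElem]
      · intro r hr hvr
        by_cases hrt : r ≤ t
        · rcases h3 r hrt hvr with h | h
          · left; omega
          · right; omega
        · left; omega
    · refine ⟨d, ?_, ?_, ?_⟩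
      · change (if v ∈ (run m L s t).informed then (pending m (run m L s t) v).tail
          else (run m L s t).rest v) = _
        rw [if_neg hv, h1]
      · intro u hu
        exact informed_mono_step m L s t (h2 u hu)
      · intro r hr hvr
        by_cases hrt : r ≤ t
        · exact absurd (informed_mono m L s hrt hvr) hv
        · left; omega

/-- If `v` is informed by the end of round `r`, then its list entry number `i` (from `0`) is
informed by the end of round `r + i + 1`, in each model. -/
theorem entry_informed (m : Model) (L : Protocol G) (s : V) (r i : ℕ) (v : V)
    (hv : v ∈ (run m L s r).informed) (hi : i < (L.list v).length) :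
    (L.list v)[i] ∈ (run m L s (r + i + 1)).informed := by
  obtain ⟨d, _, h2, h3⟩ := rest_invariant m L s (r + i + 1) v
  apply h2
  rw [List.mem_take_iff_getElem]
  refine ⟨i, ?_, rfl⟩
  rcases h3 r (by omega) hv with h | h <;> omega

/-- The number of informed vertices at most doubles in each round. -/
theorem ncard_informed_le [Finite V] (m : Model) (L : Protocol G) (s : V) (t : ℕ) :
    (run m L s t).informed.ncard ≤ 2 ^ t := by
  classical
  induction t with
  | zero => simp [run]
  | succ t ih =>
    set σ := run m L s t with hσ
    have hsub : (run m L s (t + 1)).informed ⊆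
        σ.informed ∪ (fun v => ((pending m σ v).head?).getD v) '' σ.informed := by
      intro u hu
      rcases hu with hu | ⟨v, hv, hvu⟩
      · exact Or.inl hu
      · right
        exact ⟨v, hv, by simp [hσ, hvu]⟩
    calc (run m L s (t + 1)).informed.ncard
        ≤ (σ.informed ∪ (fun v => ((pending m σ v).head?).getD v) '' σ.informed).ncard :=
          Set.ncard_le_ncard hsub (Set.toFinite _)
      _ ≤ σ.informed.ncard + ((fun v => ((pending m σ v).head?).getD v) '' σ.informed).ncard :=
          Set.ncard_union_le _ _
      _ ≤ σ.informed.ncard + σ.informed.ncard :=
          Nat.add_le_add_left (Set.ncard_image_le (Set.toFinite σ.informed)) _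
      _ ≤ 2 ^ (t + 1) := by rw [pow_succ]; omega

/-- Lower bound: a graph with `n` vertices has broadcast time at least `⌈log₂ n⌉`. -/
theorem clog_le_broadcastTime [Fintype V] [Nonempty V] (m : Model) (G : SimpleGraph V) :
    ((Nat.clog 2 (Fintype.card V) : ℕ) : ℕ∞) ≤ broadcastTime m G := by
  unfold broadcastTime
  refine le_iInf fun L => ?_
  refine le_trans ?_ (le_iSup _ (Classical.arbitrary V))
  unfold completion
  refine le_iInf fun t => le_iInf fun ht => ?_
  have h := ncard_informed_le m L (Classical.arbitrary V) t
  rw [ht, Set.ncard_univ, Nat.card_eq_fintype_card] at h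
  exact_mod_cast Nat.clog_le_of_le_pow h

theorem broadcastTime_le (m : Model) (L : Protocol G) (k : ℕ)
    (h : ∀ s : V, (run m L s k).informed = Set.univ) : broadcastTime m G ≤ k := by
  unfold broadcastTime
  refine iInf_le_of_le L ?_
  refine iSup_le fun s => ?_
  unfold completion
  exact iInf_le_of_le k (iInf_le_of_le (h s) le_rfl)

end Pool.Agent.W_MP_818d98_co
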