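import Mathlib
import Pool.Agent.W_MP_818d98_co.Process

namespace Pool.Agent.W_MP_818d98_co

variable {V : Type*}

open Classical in
/-- The list of the distinct values different from `v` among `f 0 v, …, f (k-1) v`, in order of
first occurrence. -/
noncomputable def firstList (f : ℕ → V → V) (v : V) : ℕ → List V
  | 0 => []
  | j + 1 => if f j v = v ∨ f j v ∈ firstList f v j then firstList f v j
      else firstList f v j ++ [f j v]

theorem firstList_nodup (f : ℕ → V → V) (v : V) (k : ℕ) : (firstList f v k).Nodup := by
  induction k with
  | zero => simp [firstList]
  | succ j ih =>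
    unfold firstList
    split_ifs with h
    · exact ih
    · push Not at h
      rw [List.nodup_append]
      refine ⟨ih, by simp, ?_⟩
      intro a ha b hb
      rw [List.mem_singleton] at hb
      rintro rfl
      exact h.2 (hb ▸ ha)

theorem firstList_ne (f : ℕ → V → V) (v : V) (k : ℕ) : ∀ u ∈ firstList f v k, v ≠ u := by
  induction k with
  | zero => simp [firstList]
  | succ j ih =>
    intro u hu
    unfold firstList at hu
    split_ifs at hu with h
    · exact ih u hu
    · push Not at h
      rw [List.mem_append, List.mem_singleton] at hu
      rcases hu with hu | rfl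
      · exact ih u hu
      · exact fun h' => h.1 h'.symm

theorem firstList_length (f : ℕ → V → V) (v : V) (k : ℕ) : (firstList f v k).length ≤ k := by
  induction k with
  | zero => simp [firstList]
  | succ j ih =>
    unfold firstList
    split_ifs with h
    · omega
    · simp; omega

theorem firstList_isPrefix (f : ℕ → V → V) (v : V) {j k : ℕ} (h : j ≤ k) :
    firstList f v j <+: firstList f v k := by
  induction h with
  | refl => exact List.prefix_rfl
  | step _ ih =>
    refine ih.trans ?_
    conv_rhs => unfold firstList
    split_ifs with h
    · exact List.prefix_rfl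
    · exact List.prefix_append _ _

theorem mem_firstList (f : ℕ → V → V) (v : V) (i : ℕ) (h : f i v ≠ v) :
    f i v ∈ firstList f v (i + 1) := by
  unfold firstList
  split_ifs with h'
  · rcases h' with h' | h'
    · exact absurd h' h
    · exact h'
  · simp

/-- The protocol on the complete graph in which `v` calls `f 0 v, …, f (k-1) v` (without the
repetitions and without itself). -/
noncomputable def ofFun (f : ℕ → V → V) (k : ℕ) : Protocol (⊤ : SimpleGraph V) where
  list := fun v => firstList f v k
  nodup := fun v => firstList_nodup f v k
  adj := fun v u hu => firstList_ne f v k u hu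

theorem ofFun_informed (m : Model) (f : ℕ → V → V) (k : ℕ) (s : V) (r i : ℕ) (v : V)
    (hv : v ∈ (run m (ofFun f k) s r).informed) (hi : i < k) :
    f i v ∈ (run m (ofFun f k) s (r + i + 1)).informed := by
  by_cases h : f i v = v
  · rw [h]
    exact informed_mono m _ s (by omega) hv
  · have h1 := mem_firstList f v i h
    obtain ⟨j, hj, hj'⟩ := List.getElem_of_mem h1
    have h2 : firstList f v (i + 1) <+: firstList f v k := firstList_isPrefix f v (by omega)
    have h3 : j < (firstList f v k).length := lt_of_lt_of_le hj h2.length_le
    have h4 : (firstList f v k)[j] = f i v := by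
      rw [← hj']
      exact (h2.getElem hj).symm
    have h5 := firstList_length f v (i + 1)
    have h6 := entry_informed m (ofFun f k) s r j v hv h3
    have h7 : ((ofFun f k).list v)[j] = f i v := h4
    rw [h7] at h6
    exact informed_mono m _ s (by omega) h6

/-- One step of a walk in the digraph whose arcs are `x → A x` and `x → e (κ x)`. -/
def stepWalk {S : Type*} (A : S → S) (κ : S → V) (e : V → S) (b : Bool) (x : S) : S :=
  if b then e (κ x) else A x

/-- Walks in that digraph. -/
def walkTo {S : Type*} (A : S → S) (κ : S → V) (e : V → S) (x : S) : List Bool → S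
  | [] => x
  | b :: w => walkTo A κ e (stepWalk A κ e b x) w

theorem walk_informed {S : Type*} (A : S → S) (κ : S → V) (e : V → S) (m : Model) (k : ℕ) (s : V)
    (w : List Bool) :
    ∀ (x : S) (v : V) (c r : ℕ), x = A^[c] (e v) →
      v ∈ (run m (ofFun (fun i v => κ (A^[i] (e v))) k) s r).informed → r + c + w.length < k →
      κ (walkTo A κ e x w) ∈
        (run m (ofFun (fun i v => κ (A^[i] (e v))) k) s (r + c + w.length + 1)).informed := by
  induction w with
  | nil =>
    intro x v c r hx hv hk
    simp only [List.length_nil, Nat.add_zero] at hk ⊢
    have := ofFun_informed m (fun i v => κ (A^[i] (e v))) k s r c v hv (by omega)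
    simp only [walkTo]
    rw [hx]
    exact this
  | cons b w ih =>
    intro x v c r hx hv hk
    simp only [List.length_cons] at hk ⊢
    simp only [walkTo]
    cases b with
    | false =>
      have h1 : stepWalk A κ e false x = A^[c + 1] (e v) := by
        rw [Function.iterate_succ_apply', ← hx]; rfl
      have h2 := ih (stepWalk A κ e false x) v (c + 1) r h1 hv (by omega)
      have h3 : r + (c + 1) + w.length + 1 = r + c + (w.length + 1) + 1 := by omega
      rw [h3] at h2
      exact h2
    | true =>
      have h1 : stepWalk A κ e true x = A^[0] (e (κ x)) := rfl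
      have h0 := ofFun_informed m (fun i v => κ (A^[i] (e v))) k s r c v hv (by omega)
      rw [← hx] at h0
      have h2 := ih (stepWalk A κ e true x) (κ x) 0 (r + c + 1) h1 h0 (by omega)
      have h3 : r + c + 1 + 0 + w.length + 1 = r + c + (w.length + 1) + 1 := by omega
      rw [h3] at h2
      exact h2

/-- If, in the digraph on `S` with arcs `x → A x` and `x → e (κ x)`, one can get by a walk of
length less than `k` from every `e s` to a point `x` with `κ x = u`, for every `u`, then the
complete graph on `V` has broadcast time at most `k` in each of the models. -/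
theorem broadcastTime_le_of_walk {S : Type*} (A : S → S) (κ : S → V) (e : V → S) (m : Model)
    (k : ℕ) (h : ∀ s u : V, u ≠ s → ∃ w : List Bool, w.length < k ∧ κ (walkTo A κ e (e s) w) = u) :
    broadcastTime m (⊤ : SimpleGraph V) ≤ k := by
  refine broadcastTime_le m (ofFun (fun i v => κ (A^[i] (e v))) k) k fun s => ?_
  rw [Set.eq_univ_iff_forall]
  intro u
  by_cases hu : u = s
  · rw [hu]; exact source_informed m _ s k
  · obtain ⟨w, hw, hwu⟩ := h s u hu
    have := walk_informed A κ e m k s w (e s) s 0 0 rfl (source_informed m _ s 0) (by omega)
    rw [hwu] at this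
    exact informed_mono m _ s (by omega) this

end Pool.Agent.W_MP_818d98_co
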