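import Mathlib
import Pool.Agent.W_MP_818d98_co.Walk

namespace Pool.Agent.W_MP_818d98_co

/-- End of the walk from `x` that uses the permutations `M b` for the letters `b` of `w`. -/
def walk {X : Type} (M : Bool → X ≃ X) (x : X) : List Bool → X
  | [] => x
  | b :: w => walk M (M b x) w

/-- `Good N D`: there is a digraph on `N` points, the union of two permutations, in which every
point can be reached from every point by a walk of length at most `D`. -/
def Good (N D : ℕ) : Prop :=
  ∃ (X : Type) (_ : Fintype X) (_ : DecidableEq X) (M : Bool → X ≃ X), Fintype.card X = N ∧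
    ∀ x y : X, ∃ w : List Bool, w.length ≤ D ∧ walk M x w = y

/-- The permutations of the line digraph. -/
def lineM {X : Type} (M : Bool → X ≃ X) (c : Bool) : X × Bool ≃ X × Bool where
  toFun p := (M p.2 p.1, xor p.2 c)
  invFun q := ((M (xor q.2 c)).symm q.1, xor q.2 c)
  left_inv p := by
    obtain ⟨x, b⟩ := p
    simp
  right_inv q := by
    obtain ⟨y, b⟩ := q
    simp

theorem walk_line {X : Type} (M : Bool → X ≃ X) (w : List Bool) (c : Bool) :
    ∀ (x : X) (b : Bool), ∃ w' : List Bool, w'.length = w.length + 1 ∧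
      walk (lineM M) (x, b) w' = (walk M (M b x) w, c) := by
  induction w with
  | nil =>
    intro x b
    refine ⟨[xor b c], by simp, ?_⟩
    simp [walk, lineM]
  | cons a w ih =>
    intro x b
    obtain ⟨w', h1, h2⟩ := ih (M b x) a
    refine ⟨(xor b a) :: w', by simp [h1], ?_⟩
    have : lineM M (xor b a) (x, b) = (M b x, a) := by
      simp [lineM]
    rw [walk, this, h2, walk]

theorem Good.line {N D : ℕ} (h : Good N D) : Good (2 * N) (D + 1) := by
  obtain ⟨X, hf, hd, M, hN, hw⟩ := h
  refine ⟨X × Bool, inferInstance, inferInstance, lineM M, ?_, ?_⟩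
  · rw [Fintype.card_prod, hN, Fintype.card_bool]; ring
  · rintro ⟨x, b⟩ ⟨y, c⟩
    obtain ⟨w, hwl, hwy⟩ := hw (M b x) y
    obtain ⟨w', h1, h2⟩ := walk_line M w c x b
    refine ⟨w', by omega, ?_⟩
    rw [h2, hwy]

/-- The digraph itself gives a protocol. -/
theorem Good.broadcastTime_le {N D : ℕ} (h : Good N D) (m : Model) :
    broadcastTime m (⊤ : SimpleGraph (Fin N)) ≤ (D + 1 : ℕ) := by
  obtain ⟨X, hf, hd, M, hN, hw⟩ := h
  let e : Fin N ≃ X := (Fintype.equivFinOfCardEq hN).symm
  refine broadcastTime_le_of_walk (S := X) (M false) (fun x => e.symm (M true x)) e m (D + 1) ?_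
  intro s u _
  obtain ⟨w, hwl, hwy⟩ := hw (e s) ((M true).symm (e u))
  refine ⟨w, by omega, ?_⟩
  have key : ∀ (w : List Bool) (x : X),
      walkTo (M false) (fun x => e.symm (M true x)) e x w = walk M x w := by
    intro w
    induction w with
    | nil => intro x; rfl
    | cons b w ih =>
      intro x
      rw [walkTo, walk, ih]
      congr 1
      cases b <;> simp [stepWalk]
  rw [key, hwy]
  simp

/-- The line digraph gives a protocol for every number of vertices between `N` and `2 N`. -/
theorem Good.broadcastTime_le_line {N D : ℕ} (h : Good N D) (m : Model) (n : ℕ) (h1 : N ≤ n)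
    (h2 : n ≤ 2 * N) : broadcastTime m (⊤ : SimpleGraph (Fin n)) ≤ (D + 2 : ℕ) := by
  obtain ⟨X, hf, hd, M, hN, hw⟩ := h
  classical
  -- a set `Y` of `n - N` points
  obtain ⟨Y, hY⟩ : ∃ Y : Finset X, Y.card = n - N :=
    (Finset.exists_subset_card_eq (s := (Finset.univ : Finset X)) (n := n - N)
      (by rw [Finset.card_univ, hN]; omega)).imp fun Y hY => hY.2
  let P : X × Bool → Prop := fun p => p.2 = false ∨ p.1 ∈ Y
  have hcard : Fintype.card {p : X × Bool // P p} = n := by
    rw [Fintype.card_subtype]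
    have : (Finset.univ.filter P) = (Finset.univ ×ˢ {false}) ∪ (Y ×ˢ {true}) := by
      ext ⟨x, b⟩
      cases b <;> simp [P]
    rw [this, Finset.card_union_of_disjoint]
    · simp [hY, hN]; omega
    · rw [Finset.disjoint_left]
      rintro ⟨x, b⟩ h1 h2
      simp at h1 h2
      simp [h1] at h2
  let e : Fin n ≃ {p : X × Bool // P p} := (Fintype.equivFinOfCardEq hcard).symm
  -- the bit of the vertex that is called
  let χ : X × Bool → Bool := fun p => if M p.2 p.1 ∈ Y then p.2 else false
  have hχ : ∀ p : X × Bool, P (M p.2 p.1, χ p) := by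
    intro p
    by_cases hp : M p.2 p.1 ∈ Y
    · exact Or.inr hp
    · left; simp [χ, hp]
  let κ : X × Bool → Fin n := fun p => e.symm ⟨(M p.2 p.1, χ p), hχ p⟩
  let A : X × Bool → X × Bool := fun p => (M p.2 p.1, !(χ p))
  let ι : Fin n → X × Bool := fun a => (e a).1
  have hικ : ∀ p, ι (κ p) = (M p.2 p.1, χ p) := by
    intro p; simp [ι, κ]
  have hstep : ∀ (p : X × Bool) (c : Bool), ∃ b : Bool, stepWalk A κ ι b p = (M p.2 p.1, c) := by
    intro p c
    by_cases hc : c = χ p
    · refine ⟨true, ?_⟩
      simp only [stepWalk, if_true, hικ, hc]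
    · refine ⟨false, ?_⟩
      have : c = !(χ p) := by
        cases c <;> cases hx : χ p <;> simp_all
      simp [stepWalk, A, this]
  have hwalk : ∀ (w : List Bool) (c : Bool) (x : X) (b : Bool), ∃ w' : List Bool,
      w'.length = w.length + 1 ∧ walkTo A κ ι (x, b) w' = (walk M (M b x) w, c) := by
    intro w c
    induction w with
    | nil =>
      intro x b
      obtain ⟨b', hb'⟩ := hstep (x, b) c
      exact ⟨[b'], by simp, by simp [walkTo, walk, hb']⟩
    | cons a w ih =>
      intro x b
      obtain ⟨w', h1, h2⟩ := ih (M b x) a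
      obtain ⟨b', hb'⟩ := hstep (x, b) a
      exact ⟨b' :: w', by simp [h1], by rw [walkTo, hb']; simpa [walk] using h2⟩
  refine broadcastTime_le_of_walk (S := X × Bool) A κ ι m (D + 2) ?_
  intro s u _
  -- choose `p` with `κ p = u`
  obtain ⟨p, hp⟩ : ∃ p : X × Bool, κ p = u := by
    obtain ⟨⟨y, c⟩, hyc⟩ : ∃ q : X × Bool, ι u = q := ⟨_, rfl⟩
    have hPu : P (y, c) := by rw [← hyc]; exact (e u).2
    have hMs : M c ((M c).symm y) = y := (M c).apply_symm_apply y
    refine ⟨((M c).symm y, c), ?_⟩
    have h3 : ι (κ ((M c).symm y, c)) = ι u := by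
      rw [hικ, hyc]
      simp only [χ, hMs]
      rcases hPu with h | h
      · simp only at h
        subst h
        simp
      · simp only at h
        simp [h]
    exact e.injective (Subtype.ext h3)
  obtain ⟨⟨x, b⟩, hxb⟩ : ∃ q : X × Bool, ι s = q := ⟨_, rfl⟩
  obtain ⟨y, c⟩ := p
  obtain ⟨w, hwl, hwy⟩ := hw (M b x) y
  obtain ⟨w', h3, h4⟩ := hwalk w c x b
  refine ⟨w', by omega, ?_⟩
  rw [hxb, h4, hwy, hp]

end Pool.Agent.W_MP_818d98_co
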