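import Mathlib
import Pool.Agent.W_MP_818d98_co.Digraph

namespace Pool.Agent.W_MP_818d98_co

def p0 : Fin 25 → Fin 25 := ![3, 4, 0, 1, 2, 23, 24, 20, 21, 22, 12, 13, 14, 10, 11, 9, 5, 6, 7, 8, 16, 17, 18, 19, 15]
def q0 : Fin 25 → Fin 25 := ![2, 3, 4, 0, 1, 16, 17, 18, 19, 15, 13, 14, 10, 11, 12, 24, 20, 21, 22, 23, 7, 8, 9, 5, 6]
def p1 : Fin 25 → Fin 25 := ![21, 22, 23, 24, 20, 0, 1, 2, 3, 4, 18, 19, 15, 16, 17, 8, 9, 5, 6, 7, 10, 11, 12, 13, 14]
def q1 : Fin 25 → Fin 25 := ![5, 6, 7, 8, 9, 17, 18, 19, 15, 16, 20, 21, 22, 23, 24, 12, 13, 14, 10, 11, 4, 0, 1, 2, 3]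

set_option maxRecDepth 100000 in
def e0 : Fin 25 ≃ Fin 25 := ⟨p0, q0, by decide +kernel, by decide +kernel⟩
set_option maxRecDepth 100000 in
def e1 : Fin 25 ≃ Fin 25 := ⟨p1, q1, by decide +kernel, by decide +kernel⟩

/-- The two permutations of a digraph with 25 points, out-degree 2 and diameter 4. -/
def M25 (b : Bool) : Fin 25 ≃ Fin 25 := if b then e1 else e0

/-- All words of length at most `D`. -/
def allWords : ℕ → List (List Bool)
  | 0 => [[]]
  | D + 1 => [] :: ((allWords D).map (List.cons false) ++ (allWords D).map (List.cons true))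

theorem length_of_mem_allWords (D : ℕ) : ∀ w ∈ allWords D, w.length ≤ D := by
  induction D with
  | zero => intro w hw; simp [allWords] at hw; simp [hw]
  | succ D ih =>
    intro w hw
    simp only [allWords, List.mem_cons, List.mem_append, List.mem_map] at hw
    rcases hw with rfl | ⟨v, hv, rfl⟩ | ⟨v, hv, rfl⟩
    · simp
    · have := ih v hv; simp; omega
    · have := ih v hv; simp; omega

/-- End of the walk, by tables. -/
def walk25 (x : Fin 25) : List Bool → Fin 25
  | [] => x
  | b :: w => walk25 (if b then p1 x else p0 x) w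

theorem walk25_eq (w : List Bool) : ∀ x, walk M25 x w = walk25 x w := by
  induction w with
  | nil => intro x; rfl
  | cons b w ih =>
    intro x
    rw [walk, walk25, ih]
    cases b <;> rfl

set_option maxRecDepth 100000 in
theorem reach25 : ∀ x y : Fin 25, y ∈ (allWords 4).map (walk25 x) := by
  decide +kernel

theorem good25 : Good 25 4 := by
  refine ⟨Fin 25, inferInstance, inferInstance, M25, by simp, ?_⟩
  intro x y
  obtain ⟨w, hw, hy⟩ := List.mem_map.1 (reach25 x y)
  exact ⟨w, length_of_mem_allWords 4 w hw, by rw [walk25_eq, hy]⟩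

/-- The complete digraph on three points. -/
theorem good3 : Good 3 1 := by
  refine ⟨ZMod 3, inferInstance, inferInstance,
    fun b => Equiv.addRight (if b then 1 else 2), by simp [ZMod.card], ?_⟩
  intro x y
  by_cases h0 : y = x
  · exact ⟨[], by simp, by rw [h0]; rfl⟩
  · by_cases h1 : y = x + 1
    · exact ⟨[true], by simp, by simp [walk, h1]⟩
    · refine ⟨[false], by simp, ?_⟩
      simp only [walk]
      revert x y
      decide

/-- The complete digraph on two points. -/
theorem good2 : Good 2 1 := by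
  refine ⟨ZMod 2, inferInstance, inferInstance,
    fun b => Equiv.addRight (if b then 1 else 0), by simp [ZMod.card], ?_⟩
  intro x y
  by_cases h0 : y = x
  · exact ⟨[], by simp, by rw [h0]; rfl⟩
  · refine ⟨[true], by simp, ?_⟩
    simp only [walk]
    revert x y
    decide

end Pool.Agent.W_MP_818d98_co
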