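import Mathlib
import Pool.Agent.W_MP_818d98_co.Base

namespace Pool.Agent.W_MP_818d98_co

theorem good_family (j : ℕ) : Good (25 * 2 ^ j) (4 + j) := by
  induction j with
  | zero => simpa using good25
  | succ j ih =>
    have h := ih.line
    have h1 : 2 * (25 * 2 ^ j) = 25 * 2 ^ (j + 1) := by rw [pow_succ]; ring
    rw [h1] at h
    exact h

theorem broadcastTime_mono_right {a b : ℕ} (hab : a ≤ b) {x : ℕ∞} (h : x ≤ (a : ℕ)) :
    x ≤ (b : ℕ) := h.trans (by exact_mod_cast hab)

theorem broadcastTime_one (m : Model) : broadcastTime m (⊤ : SimpleGraph (Fin 1)) ≤ (0 : ℕ) := by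
  refine broadcastTime_le m (ofFun (fun _ v => v) 0) 0 fun s => ?_
  rw [Set.eq_univ_iff_forall]
  intro u
  rw [Subsingleton.elim u s]
  exact source_informed m _ s 0

/-- The upper bound: the complete graph on `n` vertices has broadcast time at most `k`, in each of
the three models, as soon as `32 n ≤ 25 · 2 ^ k`. -/
theorem upper (m : Model) (n k : ℕ) (hn : 1 ≤ n) (hk : 32 * n ≤ 25 * 2 ^ k) :
    broadcastTime m (⊤ : SimpleGraph (Fin n)) ≤ (k : ℕ) := by
  induction k with
  | zero => omega
  | succ k ih =>
    by_cases hk' : 32 * n ≤ 25 * 2 ^ k
    · exact broadcastTime_mono_right (Nat.le_succ k) (ih hk')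
    · have h6 : Good 6 2 := good3.line
      have h12 : Good 12 3 := h6.line
      push Not at hk'
      by_cases hk5 : 5 ≤ k
      · obtain ⟨j, rfl⟩ : ∃ j, k = 5 + j := ⟨k - 5, by omega⟩
        have h := (good_family j).broadcastTime_le_line m n
          (by have : 2 ^ (5 + j) = 32 * 2 ^ j := by rw [pow_add]; norm_num
              omega)
          (by have : 2 ^ (5 + j + 1) = 64 * 2 ^ j := by rw [pow_add, pow_add]; ring
              omega)
        exact broadcastTime_mono_right (by omega) h
      · interval_cases k
        · -- n = 1
          have : n = 1 := by omega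
          subst this
          exact broadcastTime_mono_right (by omega) (broadcastTime_one m)
        · have : n = 2 ∨ n = 3 := by omega
          rcases this with rfl | rfl
          · exact good2.broadcastTime_le m
          · exact good3.broadcastTime_le m
        · exact good3.broadcastTime_le_line m n (by omega) (by omega)
        · exact h6.broadcastTime_le_line m n (by omega) (by omega)
        · by_cases h24 : n ≤ 24
          · exact h12.broadcastTime_le_line m n (by omega) (by omega)
          · have : n = 25 := by omega
            subst this
            exact good25.broadcastTime_le m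

end Pool.Agent.W_MP_818d98_co
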