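import Mathlib
import Pool.Agent.W_MP_818d98_co.Data12
import Pool.Agent.W_MP_818d98_co.Data13
import Pool.Agent.W_MP_818d98_co.Data14
import Pool.Agent.W_MP_818d98_co.Data15
import Pool.Agent.W_MP_818d98_co.DataInj

namespace Pool.Agent.W_MP_818d98_co

open Chk

/-- the vertex reached from `a` by the word `l` -/
def epV {V : Type*} (f : ℕ → V → V) : V → List ℕ → V
  | a, [] => a
  | a, i :: l => epV f (f i a) l

theorem epV_append {V : Type*} (f : ℕ → V → V) : ∀ (l : List ℕ) (a : V) (l' : List ℕ),
    epV f a (l ++ l') = epV f (epV f a l) l'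
  | [], _, _ => rfl
  | i :: l, a, l' => epV_append f l (f i a) l'

def Pos (l : List ℕ) : Prop := ∀ i ∈ l, 1 ≤ i

/-- the 16 words of weight at most 4 -/
def words4 : List (List ℕ) :=
  [[], [1], [1, 1], [2], [1, 1, 1], [1, 2], [2, 1], [3], [1, 1, 1, 1], [1, 1, 2], [1, 2, 1],
    [1, 3], [2, 1, 1], [2, 2], [3, 1], [4]]

theorem mem_words4 (l : List ℕ) (h : Pos l) (hs : l.sum ≤ 4) : l ∈ words4 := by
  match l, h, hs with
  | [], _, _ => decide
  | [a], h, hs =>
    have ha := h a (by simp)
    simp only [List.sum_cons, List.sum_nil, Nat.add_zero] at hs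
    interval_cases a <;> decide
  | [a, b], h, hs =>
    have ha := h a (by simp)
    have hb := h b (by simp)
    simp only [List.sum_cons, List.sum_nil, Nat.add_zero] at hs
    have : a ≤ 3 := by omega
    have : b ≤ 3 := by omega
    interval_cases a <;> interval_cases b <;> first | decide | omega
  | [a, b, c], h, hs =>
    have ha := h a (by simp)
    have hb := h b (by simp)
    have hc := h c (by simp)
    simp only [List.sum_cons, List.sum_nil, Nat.add_zero] at hs
    have : a ≤ 2 := by omega
    have : b ≤ 2 := by omega
    have : c ≤ 2 := by omega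
    interval_cases a <;> interval_cases b <;> interval_cases c <;> first | decide | omega
  | [a, b, c, d], h, hs =>
    have ha := h a (by simp)
    have hb := h b (by simp)
    have hc := h c (by simp)
    have hd := h d (by simp)
    simp only [List.sum_cons, List.sum_nil, Nat.add_zero] at hs
    have : a = 1 := by omega
    have : b = 1 := by omega
    have : c = 1 := by omega
    have : d = 1 := by omega
    subst_vars
    decide
  | a :: b :: c :: d :: e :: t, h, hs =>
    have ha := h a (by simp)
    have hb := h b (by simp)
    have hc := h c (by simp)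
    have hd := h d (by simp)
    have he := h e (by simp)
    simp only [List.sum_cons] at hs
    omega

theorem words4_nodup : words4.Nodup := by decide

section

variable {V : Type*} [Fintype V] (hV : Fintype.card V = 16) (f : ℕ → V → V)
  (hsurj : ∀ s v, ∃ l, Pos l ∧ l.sum ≤ 4 ∧ epV f s l = v)

include hsurj

omit [Fintype V] in
theorem word_surj (s : V) : Function.Surjective (fun j : Fin 16 => epV f s (words4.get j)) := by
  intro v
  obtain ⟨l, h1, h2, h3⟩ := hsurj s v
  obtain ⟨j, hj⟩ := List.get_of_mem (mem_words4 l h1 h2)
  exact ⟨j, by rw [← h3, ← hj]⟩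

include hV

theorem word_bij (s : V) : Function.Bijective (fun j : Fin 16 => epV f s (words4.get j)) := by
  have h := word_surj f hsurj s
  exact (Fintype.bijective_iff_surjective_and_card _).2 ⟨h, by rw [hV]; simp⟩

/-- words of weight at most 4 have distinct endpoints -/
theorem word_inj (s : V) (l l' : List ℕ) (h : Pos l) (h' : Pos l') (hs : l.sum ≤ 4)
    (hs' : l'.sum ≤ 4) (he : epV f s l = epV f s l') : l = l' := by
  obtain ⟨j, hj⟩ := List.get_of_mem (mem_words4 l h hs)
  obtain ⟨j', hj'⟩ := List.get_of_mem (mem_words4 l' h' hs')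
  have : j = j' := by
    apply (word_bij hV f hsurj s).1
    show epV f s (words4.get j) = epV f s (words4.get j')
    rw [hj, hj', he]
  rw [← hj, ← hj', this]

end

/-- the functions `f i` transported to the labels -/
def tr {V : Type*} (f : ℕ → V → V) (e : Fin 16 ≃ V) (i x : ℕ) : ℕ :=
  if h : x < 16 then (e.symm (f i (e ⟨x, h⟩))).val else 0

theorem tr_eq {V : Type*} (f : ℕ → V → V) (e : Fin 16 ≃ V) (i : ℕ) (x y : Fin 16)
    (h : f i (e x) = e y) : tr f e i x = y := by
  unfold tr
  rw [dif_pos x.2]
  show (e.symm (f i (e x))).val = y.val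
  rw [h, Equiv.symm_apply_apply]

theorem tr_ep {V : Type*} (f : ℕ → V → V) (e : Fin 16 ≃ V) : ∀ (l : List ℕ) (x : Fin 16),
    ep (tr f e) x l = (e.symm (epV f (e x) l)).val
  | [], x => by
    show x.val = (e.symm (e x)).val
    rw [Equiv.symm_apply_apply]
  | i :: l, x => by
    have h : tr f e i x = (e.symm (f i (e x))).val := by
      unfold tr
      rw [dif_pos x.2]
    show ep (tr f e) (tr f e i x) l = _
    rw [h, tr_ep f e l (e.symm (f i (e x)))]
    rw [Equiv.apply_symm_apply]
    rfl

theorem Ok.pos {l : List ℕ} (h : Ok l) : Pos l := fun i hi => (h i hi).1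

theorem tr_good {V : Type*} [Fintype V] (hV : Fintype.card V = 16) (f : ℕ → V → V)
    (hsurj : ∀ s v, ∃ l, Pos l ∧ l.sum ≤ 4 ∧ epV f s l = v) (e : Fin 16 ≃ V) :
    Good (tr f e) := by
  constructor
  · intro i a _ _ ha
    unfold tr
    rw [dif_pos ha]
    exact (e.symm _).2
  · intro a ha l l' h h' hs hs' he
    have h1 := tr_ep f e l ⟨a, ha⟩
    have h2 := tr_ep f e l' ⟨a, ha⟩
    change ep (tr f e) a l = _ at h1
    change ep (tr f e) a l' = _ at h2
    rw [h1, h2] at he
    have he' := e.symm.injective (Fin.ext he)
    exact word_inj hV f hsurj _ l l' (Ok.pos h) (Ok.pos h') hs hs' he'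

section

variable {V : Type*} [Fintype V] (hV : Fintype.card V = 16) (f : ℕ → V → V)
  (hsurj : ∀ s v, ∃ l, Pos l ∧ l.sum ≤ 4 ∧ epV f s l = v)

/-- the labelling with base `s` -/
noncomputable def lab (s : V) : Fin 16 ≃ V := Equiv.ofBijective _ (word_bij hV f hsurj s)

theorem lab_apply (s : V) (j : Fin 16) : lab hV f hsurj s j = epV f s (words4.get j) := rfl

include hV hsurj

theorem base_arc (s : V) (i : ℕ) (v u : Fin 16) (h : words4.get u = words4.get v ++ [i]) :
    tr f (lab hV f hsurj s) i v = u := by
  apply tr_eq
  rw [lab_apply, lab_apply, h, epV_append]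
  rfl

theorem base_arcs (s : V) : ∀ x ∈ baseArcs, tr f (lab hV f hsurj s) x.1 x.2.1 = x.2.2 := by
  intro x hx
  simp only [baseArcs, List.mem_cons, List.not_mem_nil, or_false] at hx
  rcases hx with rfl | rfl | rfl | rfl | rfl | rfl | rfl | rfl | rfl | rfl | rfl | rfl | rfl | rfl
  · exact base_arc hV f hsurj s 1 0 1 (by decide)
  · exact base_arc hV f hsurj s 1 1 2 (by decide)
  · exact base_arc hV f hsurj s 2 0 3 (by decide)
  · exact base_arc hV f hsurj s 1 2 4 (by decide)
  · exact base_arc hV f hsurj s 2 1 5 (by decide)
  · exact base_arc hV f hsurj s 1 3 6 (by decide)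
  · exact base_arc hV f hsurj s 3 0 7 (by decide)
  · exact base_arc hV f hsurj s 1 4 8 (by decide)
  · exact base_arc hV f hsurj s 2 2 9 (by decide)
  · exact base_arc hV f hsurj s 1 5 10 (by decide)
  · exact base_arc hV f hsurj s 3 1 11 (by decide)
  · exact base_arc hV f hsurj s 1 6 12 (by decide)
  · exact base_arc hV f hsurj s 2 3 13 (by decide)
  · exact base_arc hV f hsurj s 1 7 14 (by decide)

/-- `f 1` cannot be injective. -/
theorem not_injective (s : V) (hinj : Function.Injective (f 1)) : False := by
  set e := lab hV f hsurj s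
  refine refute (F := tr f e) (tr_good hV f hsurj e) true ?_ DataInj.arcList (by decide) ?_
    DataInj.kn DataInj.r1 DataInj.r2 DataInj.r3 DataInj.r4 DataInj.dat DataInj.htab DataInj.hrun
  · intro _ a ha b hb hab
    unfold tr at hab
    rw [dif_pos ha, dif_pos hb] at hab
    have h1 := e.symm.injective (Fin.ext hab)
    have h2 := e.injective (hinj h1)
    exact congrArg Fin.val h2
  · intro x hx
    have hx' : x ∈ baseArcs := by
      simpa [DataInj.arcList] using hx
    exact base_arcs hV f hsurj s x hx'

/-- If `f 1 s = f 1 t` with `t ≠ s` then `t` is the vertex `f 4 s`. -/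
theorem leftover (s t : V) (hst : t ≠ s) (h1 : f 1 t = f 1 s) : t = f 4 s := by
  set e := lab hV f hsurj s with he
  obtain ⟨j, hj⟩ := e.surjective t
  -- the value of `F 1 j`
  have hF1 : tr f e 1 j = 1 := by
    have h0 : e 1 = f 1 s := by rw [he, lab_apply]; rfl
    have := tr_eq f e 1 j 1 (by rw [hj, h1, h0])
    exact this
  have hG := tr_good hV f hsurj e
  have harcs := base_arcs hV f hsurj s
  rw [← he] at harcs
  have hall : ∀ (j : Fin 16), tr f e 1 j = 1 → e j ≠ s → j = 15 := by
    intro j hF1 hne
    -- words starting with the letter 1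
    have hloop : ∀ l, Pos l → l.sum ≤ 3 → e j ≠ epV f (f 1 s) l := by
      intro l hl hls hcon
      have h2 : f 1 (e j) = f 1 s := by
        have h3 : (e.symm (f 1 (e j))) = 1 := by
          apply Fin.ext
          have h4 : tr f e 1 j = (e.symm (f 1 (e j))).val := by
            unfold tr
            rw [dif_pos j.2]
          rw [← h4, hF1]; rfl
        have h5 : f 1 (e j) = e 1 := by rw [← h3, Equiv.apply_symm_apply]
        rw [h5, he, lab_apply]; rfl
      have h6 : epV f (f 1 s) (l ++ [1]) = epV f (f 1 s) [] := by
        rw [epV_append, ← hcon]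
        exact h2
      have h7 := word_inj hV f hsurj (f 1 s) (l ++ [1]) [] ?_ ?_ ?_ ?_ h6
      · exact absurd h7 (by simp)
      · intro i hi
        rcases List.mem_append.1 hi with hi | hi
        · exact hl i hi
        · simp only [List.mem_singleton] at hi; omega
      · intro i hi; simp at hi
      · rw [List.sum_append]; simp; omega
      · simp
    have hlab : ∀ l, words4.get j = 1 :: l → False := by
      intro l hl
      have hmem : words4.get j ∈ words4 := List.get_mem _ _
      have hpos : ∀ w ∈ words4, (∀ i ∈ w, 1 ≤ i) ∧ w.sum ≤ 4 := by decide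
      have h8 := hpos _ hmem
      rw [hl] at h8
      refine hloop l (fun i hi => h8.1 i (List.mem_cons_of_mem _ hi)) ?_ ?_
      · have := h8.2
        rw [List.sum_cons] at this
        omega
      · rw [he, lab_apply, hl]; rfl
    have harc : ∀ u, (1, j.val, u) ∈ baseArcs → u = 1 := by
      intro u hu
      have := harcs _ hu
      exact this.symm.trans hF1
    fin_cases j
    · exact absurd (by rw [he, lab_apply]; rfl) hne
    · exact (hlab _ rfl).elim
    · exact (hlab _ rfl).elim
    · exact absurd (harc 6 (by decide)) (by decide)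
    · exact (hlab _ rfl).elim
    · exact (hlab _ rfl).elim
    · exact absurd (harc 12 (by decide)) (by decide)
    · exact absurd (harc 14 (by decide)) (by decide)
    · exact (hlab _ rfl).elim
    · exact (hlab _ rfl).elim
    · exact (hlab _ rfl).elim
    · exact (hlab _ rfl).elim
    · refine (refute hG false (fun h => absurd h (by simp)) Data12.arcList (by decide) ?_
        Data12.kn Data12.r1 Data12.r2 Data12.r3 Data12.r4 Data12.dat Data12.htab
        Data12.hrun).elim
      intro x hx
      rcases List.mem_append.1 (show x ∈ baseArcs ++ [(1, 12, 1)] from hx) with hx | hx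
      · exact harcs x hx
      · rw [List.mem_singleton] at hx
        subst hx
        exact hF1
    · refine (refute hG false (fun h => absurd h (by simp)) Data13.arcList (by decide) ?_
        Data13.kn Data13.r1 Data13.r2 Data13.r3 Data13.r4 Data13.dat Data13.htab
        Data13.hrun).elim
      intro x hx
      rcases List.mem_append.1 (show x ∈ baseArcs ++ [(1, 13, 1)] from hx) with hx | hx
      · exact harcs x hx
      · rw [List.mem_singleton] at hx
        subst hx
        exact hF1
    · refine (refute hG false (fun h => absurd h (by simp)) Data14.arcList (by decide) ?_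
        Data14.kn Data14.r1 Data14.r2 Data14.r3 Data14.r4 Data14.dat Data14.htab
        Data14.hrun).elim
      intro x hx
      rcases List.mem_append.1 (show x ∈ baseArcs ++ [(1, 14, 1)] from hx) with hx | hx
      · exact harcs x hx
      · rw [List.mem_singleton] at hx
        subst hx
        exact hF1
    · rfl
  have hj15 := hall j hF1 (by rw [hj]; exact hst)
  subst hj15
  rw [← hj, he, lab_apply]
  rfl

/-- No `f` reaches all 16 vertices from every vertex by words of weight at most 4. -/
theorem no_perfect (s : V) : False := by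
  by_cases hinj : Function.Injective (f 1)
  · exact not_injective hV f hsurj s hinj
  · rw [Function.Injective] at hinj
    push Not at hinj
    obtain ⟨s, t, h1, hst⟩ := hinj
    have ht := leftover hV f hsurj s t (fun h => hst h.symm) h1.symm
    have hs := leftover hV f hsurj t s hst h1
    set e := lab hV f hsurj s with he
    have he15 : e 15 = t := by rw [he, lab_apply, ht]; rfl
    have he0 : e 0 = s := by rw [he, lab_apply]; rfl
    have he1 : e 1 = f 1 s := by rw [he, lab_apply]; rfl
    have hG := tr_good hV f hsurj e
    refine refute_forb hG Data15.arcList (by decide) ?_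
        Data15.kn Data15.r1 Data15.r2 Data15.r3 Data15.r4 Data15.dat ?_ Data15.htab
        Data15.hrun
    · intro x hx
      rcases List.mem_append.1 (show x ∈ baseArcs ++ [(1, 15, 1)] from hx) with hx | hx
      · exact base_arcs hV f hsurj s x hx
      · rw [List.mem_singleton] at hx
        subst hx
        exact tr_eq f e 1 15 1 (by rw [he15, he1, h1])
    · intro l hl hls hcon
      have h2 := tr_ep f e l 15
      change ep (tr f e) 15 l = _ at h2
      rw [h2] at hcon
      have h3 : e.symm (epV f (e 15) l) = 0 := Fin.ext hcon
      rw [Equiv.symm_apply_eq, he15, he0] at h3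
      have h4 : epV f t l = epV f t [4] := by
        rw [h3]
        exact hs
      have h5 := word_inj hV f hsurj t l [4] (Ok.pos hl) (by intro i hi; simp at hi; omega) hls
        (by simp) h4
      subst h5
      have := hl 4 (by simp)
      omega

end

end Pool.Agent.W_MP_818d98_co
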