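import Mathlib
import Pool.Agent.W_MP_818d98_co.Process
import Pool.Agent.W_MP_818d98_co.Perfect

namespace Pool.Agent.W_MP_818d98_co

variable {V : Type*} {G : SimpleGraph V}

/-- entry number `i` (from 1) of the list of `v`, or `v` -/
def entry (L : Protocol G) (i : ℕ) (v : V) : V := (L.list v).getD (i - 1) v

/-- In the non-adaptive model an informed vertex `v` has been reached by a word `l` and what is
left of its list is determined by the weight of `l`. -/
theorem nonAdaptive_invariant (L : Protocol G) (s : V) (t : ℕ) :
    (∀ v ∈ (run Model.nonAdaptive L s t).informed, ∃ l, Pos l ∧ l.sum ≤ t ∧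
      epV (entry L) s l = v ∧
        (run Model.nonAdaptive L s t).rest v = (L.list v).drop (t - l.sum)) ∧
    (∀ v, v ∉ (run Model.nonAdaptive L s t).informed →
      (run Model.nonAdaptive L s t).rest v = L.list v) := by
  classical
  induction t with
  | zero =>
    refine ⟨?_, fun v _ => rfl⟩
    intro v hv
    have hv' : v = s := hv
    subst hv'
    exact ⟨[], by intro i hi; simp at hi, by simp, rfl, by simp [run]⟩
  | succ t ih =>
    obtain ⟨ih1, ih2⟩ := ih
    set σ := run Model.nonAdaptive L s t with hσ
    have hpend : ∀ v, pending Model.nonAdaptive σ v = σ.rest v := by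
      intro v
      unfold pending
      have : (fun u => decide (Skips Model.nonAdaptive σ v u)) = fun _ => false := by
        funext u
        exact decide_eq_false (fun h => h)
      rw [this]
      cases σ.rest v <;> simp
    have hrest : ∀ v, (run Model.nonAdaptive L s (t + 1)).rest v =
        if v ∈ σ.informed then (σ.rest v).tail else σ.rest v := by
      intro v
      change (if v ∈ σ.informed then (pending Model.nonAdaptive σ v).tail else σ.rest v) = _
      rw [hpend]
    constructor
    · intro v hv
      by_cases hvt : v ∈ σ.informed
      · obtain ⟨l, h1, h2, h3, h4⟩ := ih1 v hvt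
        refine ⟨l, h1, by omega, h3, ?_⟩
        rw [hrest, if_pos hvt, h4, List.tail_drop]
        congr 1
        omega
      · rcases hv with hv | ⟨p, hp, hpv⟩
        · exact absurd hv hvt
        · obtain ⟨l, h1, h2, h3, h4⟩ := ih1 p hp
          rw [hpend, h4, List.head?_drop] at hpv
          refine ⟨l ++ [t - l.sum + 1], ?_, ?_, ?_, ?_⟩
          · intro i hi
            rcases List.mem_append.1 hi with hi | hi
            · exact h1 i hi
            · simp only [List.mem_singleton] at hi; omega
          · rw [List.sum_append]; simp; omega
          · rw [epV_append, h3]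
            show (L.list p).getD (t - l.sum + 1 - 1) p = v
            rw [Nat.add_sub_cancel, List.getD_eq_getElem?_getD, hpv]
            rfl
          · rw [hrest, if_neg hvt, ih2 v hvt]
            have : t + 1 - (l ++ [t - l.sum + 1]).sum = 0 := by
              rw [List.sum_append]; simp; omega
            rw [this, List.drop_zero]
    · intro v hv
      have hvt : v ∉ σ.informed := fun h => hv (Or.inl h)
      rw [hrest, if_neg hvt, ih2 v hvt]

/-- No graph with 16 vertices has broadcast time at most 4 in the non-adaptive model. -/
theorem four_lt_broadcastTime [Fintype V] (hV : Fintype.card V = 16) (G : SimpleGraph V) :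
    (4 : ℕ∞) < broadcastTime Model.nonAdaptive G := by
  classical
  have hne : Nonempty V := Fintype.card_pos_iff.1 (by omega)
  by_contra hcon
  rw [not_lt] at hcon
  -- some protocol has all completion times at most 4
  have h1 : ∃ L : Protocol G, ⨆ s : V, completion Model.nonAdaptive L s < 5 := by
    have h5 : broadcastTime Model.nonAdaptive G < 5 := lt_of_le_of_lt hcon (by norm_num)
    unfold broadcastTime at h5
    exact iInf_lt_iff.1 h5
  obtain ⟨L, hL⟩ := h1
  have h2 : ∀ s : V, (run Model.nonAdaptive L s 4).informed = Set.univ := by
    intro s
    have h3 : completion Model.nonAdaptive L s < 5 := lt_of_le_of_lt (le_iSup _ s) hL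
    unfold completion at h3
    obtain ⟨t, ht⟩ := iInf_lt_iff.1 h3
    obtain ⟨hu, ht⟩ := iInf_lt_iff.1 ht
    have ht4 : t ≤ 4 := by
      have : t < 5 := by exact_mod_cast ht
      omega
    exact Set.univ_subset_iff.1 (hu ▸ informed_mono Model.nonAdaptive L s ht4)
  refine no_perfect hV (entry L) ?_ hne.some
  intro s v
  obtain ⟨l, k1, k2, k3, _⟩ := (nonAdaptive_invariant L s 4).1 v (by rw [h2 s]; trivial)
  exact ⟨l, k1, k2, k3⟩

end Pool.Agent.W_MP_818d98_co
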