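import Mathlib
import Pool.Agent.W_MP_818d98_co.Upper

namespace Pool.Agent.W_MP_818d98_co

/-- The vertices informed from `s` after `k` rounds (at most `fuel` calls deep). -/
def balls {V : Type} (f : ℕ → V → V) : ℕ → ℕ → V → List V
  | 0, _, s => [s]
  | fuel + 1, k, s => s :: (List.range k).flatMap fun i => balls f fuel (k - 1 - i) (f i s)

theorem balls_informed {V : Type} (m : Model) (f : ℕ → V → V) (K : ℕ) (s : V) (fuel : ℕ) :
    ∀ (k r : ℕ) (v u : V), v ∈ (run m (ofFun f K) s r).informed → r + k ≤ K →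
      u ∈ balls f fuel k v → u ∈ (run m (ofFun f K) s (r + k)).informed := by
  induction fuel with
  | zero =>
    intro k r v u hv _ hu
    simp only [balls, List.mem_singleton] at hu
    subst hu
    exact informed_mono m _ s (by omega) hv
  | succ fuel ih =>
    intro k r v u hv hk hu
    simp only [balls, List.mem_cons, List.mem_flatMap, List.mem_range] at hu
    rcases hu with rfl | ⟨i, hi, hu⟩
    · exact informed_mono m _ s (by omega) hv
    · have h1 := ofFun_informed m f K s r i v hv (by omega)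
      have h2 := ih (k - 1 - i) (r + i + 1) (f i v) u h1 (by omega) hu
      have h3 : r + i + 1 + (k - 1 - i) = r + k := by omega
      rwa [h3] at h2

theorem broadcastTime_le_of_balls {V : Type} (m : Model) (f : ℕ → V → V) (k : ℕ)
    (h : ∀ s u : V, u ∈ balls f k k s) : broadcastTime m (⊤ : SimpleGraph V) ≤ k := by
  refine broadcastTime_le m (ofFun f k) k fun s => ?_
  rw [Set.eq_univ_iff_forall]
  intro u
  have := balls_informed m f k s k k 0 s u (source_informed m _ s 0) (by omega) (h s u)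
  rwa [Nat.zero_add] at this

/-- The function given by a table. -/
def tbl (n : ℕ) [NeZero n] (l : List (List ℕ)) (i : ℕ) (v : Fin n) : Fin n :=
  Fin.ofNat n ((l.getD v.val []).getD i v.val)

def l2 : List (List ℕ) :=
  [ [1],
    [0]]

set_option maxRecDepth 100000 in
theorem small2 (m : Model) : broadcastTime m (⊤ : SimpleGraph (Fin 2)) ≤ (1 : ℕ) :=
  broadcastTime_le_of_balls m (tbl 2 l2) 1 (by decide +kernel)

def l4 : List (List ℕ) :=
  [ [1, 3],
    [2, 0],
    [3, 0],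
    [1, 0]]

set_option maxRecDepth 100000 in
theorem small4 (m : Model) : broadcastTime m (⊤ : SimpleGraph (Fin 4)) ≤ (2 : ℕ) :=
  broadcastTime_le_of_balls m (tbl 4 l4) 2 (by decide +kernel)

def l7 : List (List ℕ) :=
  [ [6, 3, 5],
    [5, 3, 4],
    [6, 1, 0],
    [1, 6, 2],
    [3, 5, 2],
    [0, 2, 1],
    [4, 2, 0]]

set_option maxRecDepth 100000 in
theorem small7 (m : Model) : broadcastTime m (⊤ : SimpleGraph (Fin 7)) ≤ (3 : ℕ) :=
  broadcastTime_le_of_balls m (tbl 7 l7) 3 (by decide +kernel)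

def l8 : List (List ℕ) :=
  [ [1, 3, 7],
    [2, 5, 3],
    [4, 6, 3],
    [6, 2, 5],
    [7, 1, 6],
    [0, 4, 6],
    [0, 7, 4],
    [5, 3, 2]]

set_option maxRecDepth 100000 in
theorem small8 (m : Model) : broadcastTime m (⊤ : SimpleGraph (Fin 8)) ≤ (3 : ℕ) :=
  broadcastTime_le_of_balls m (tbl 8 l8) 3 (by decide +kernel)

def l13 : List (List ℕ) :=
  [ [3, 1, 10, 8],
    [12, 7, 3, 2],
    [0, 4, 11, 7],
    [6, 9, 2, 1],
    [11, 5, 1, 10],
    [0, 2, 11, 7],
    [12, 5, 7, 10],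
    [5, 11, 10, 12],
    [0, 7, 2, 4],
    [0, 4, 7, 2],
    [4, 2, 6, 7],
    [8, 9, 6, 10],
    [11, 10, 1, 5]]

set_option maxRecDepth 100000 in
theorem small13 (m : Model) : broadcastTime m (⊤ : SimpleGraph (Fin 13)) ≤ (4 : ℕ) :=
  broadcastTime_le_of_balls m (tbl 13 l13) 4 (by decide +kernel)

def l14 : List (List ℕ) :=
  [ [4, 2, 1, 7],
    [12, 10, 8, 11],
    [3, 4, 8, 12],
    [9, 5, 6, 4],
    [6, 11, 8, 1],
    [8, 11, 1, 7],
    [10, 5, 12, 3],
    [13, 5, 6, 12],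
    [0, 10, 12, 5],
    [7, 1, 0, 11],
    [9, 4, 2, 8],
    [13, 3, 6, 12],
    [13, 5, 6, 7],
    [2, 8, 1, 11]]

set_option maxRecDepth 100000 in
theorem small14 (m : Model) : broadcastTime m (⊤ : SimpleGraph (Fin 14)) ≤ (4 : ℕ) :=
  broadcastTime_le_of_balls m (tbl 14 l14) 4 (by decide +kernel)

def l15 : List (List ℕ) :=
  [ [9, 4, 6, 11],
    [2, 14, 4, 10],
    [0, 13, 11, 1],
    [10, 4, 9, 1],
    [5, 13, 11, 12],
    [2, 14, 1, 10],
    [7, 4, 11, 9],
    [12, 14, 0, 5],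
    [0, 13, 1, 11],
    [12, 14, 8, 5],
    [11, 6, 1, 3],
    [8, 14, 5, 10],
    [3, 1, 13, 7],
    [3, 7, 2, 1],
    [6, 8, 1, 10]]

set_option maxRecDepth 100000 in
theorem small15 (m : Model) : broadcastTime m (⊤ : SimpleGraph (Fin 15)) ≤ (4 : ℕ) :=
  broadcastTime_le_of_balls m (tbl 15 l15) 4 (by decide +kernel)

/-- For `1 ≤ n ≤ 15` the complete graph on `n` vertices has broadcast time `⌈log₂ n⌉`. -/
theorem small (m : Model) (n : ℕ) (h1 : 1 ≤ n) (h15 : n ≤ 15) :
    broadcastTime m (⊤ : SimpleGraph (Fin n)) ≤ (Nat.clog 2 n : ℕ) := by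
  have hc : ∀ c : Fin 16, (32 * c.val ≤ 25 * 2 ^ Nat.clog 2 c.val) ∨
      (Nat.clog 2 c.val = 1 ∧ c.val = 2) ∨ (Nat.clog 2 c.val = 2 ∧ c.val = 4) ∨
      (Nat.clog 2 c.val = 3 ∧ (c.val = 7 ∨ c.val = 8)) ∨
      (Nat.clog 2 c.val = 4 ∧ (c.val = 13 ∨ c.val = 14 ∨ c.val = 15)) ∨
      (Nat.clog 2 c.val = 0 ∧ c.val ≤ 1) := by
    decide +kernel
  rcases hc ⟨n, by omega⟩ with h | ⟨h, h'⟩ | ⟨h, h'⟩ | ⟨h, h'⟩ | ⟨h, h'⟩ | ⟨h, h'⟩ <;>
    simp only at h
  · exact upper m n _ h1 h
  · simp only at h'; subst h'; rw [h]; exact small2 m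
  · simp only at h'; subst h'; rw [h]; exact small4 m
  · simp only at h'
    rcases h' with rfl | rfl
    · rw [h]; exact small7 m
    · rw [h]; exact small8 m
  · simp only at h'
    rcases h' with rfl | rfl | rfl
    · rw [h]; exact small13 m
    · rw [h]; exact small14 m
    · rw [h]; exact small15 m
  · simp only at h'
    have : n = 1 := by omega
    subst this
    rw [h]; exact broadcastTime_one m

end Pool.Agent.W_MP_818d98_co
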