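import Mathlib

namespace Pool.Agent.W_MP_818d98_co.Chk

/-- Continue with the value of `n` (the recursor makes the kernel compute `n` first). -/
noncomputable def force (n : Nat) (k : Nat → Bool) : Bool :=
  @Nat.rec (fun _ => Bool) (k 0) (fun m _ => k (Nat.succ m)) n

/-- Stack of situations: known arcs and the four reachability tables (each table stored as
`table * 2 ^ 64 + (anything below 2 ^ 64)`). -/
inductive Stk
  | nil : Stk
  | cons (kn r1 r2 r3 r4 : Nat) (rest : Stk) : Stk

/-- `∑ 2 ^ (16 a)`, `a < 16`. -/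
def ones : Nat := 0x0001000100010001000100010001000100010001000100010001000100010001

/-- `∑ 2 ^ (17 a)`, `a < 16`: each vertex reaches itself. -/
def diag : Nat := 0x8000400020001000080004000200010000800040002000100008000400020001

/-- all positions off the diagonal -/
def offdiag : Nat := 0x7fffbfffdfffeffff7fffbfffdfffeffff7fffbfffdfffeffff7fffbfffdfffe

/-- store a table -/
def mk (p s : Nat) : Nat := Nat.add (Nat.shiftLeft p 64) (Nat.mod s 18446744073709551616)
/-- the stored table -/
def pl (r : Nat) : Nat := Nat.shiftRight r 64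
/-- row number `u` of a stored table -/
def fld (r u : Nat) : Nat := Nat.land (Nat.shiftRight r (Nat.add 64 (Nat.mul 16 u))) 65535
/-- column number `v` of a stored table -/
def msk (r v : Nat) : Nat := Nat.land (Nat.shiftRight r (Nat.add 64 v)) ones

/-- `or` with a shift -/
def sh (k x : Nat) : Nat := Nat.lor x (Nat.shiftRight x k)
/-- union of the rows -/
def foldA (x : Nat) : Nat := Nat.land (sh 16 (sh 32 (sh 64 (sh 128 x)))) 65535
/-- which rows are nonempty -/
def rows (x : Nat) : Nat := Nat.land (sh 1 (sh 2 (sh 4 (sh 8 x)))) ones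

/-- union of the rows of `r4` selected by `m` -/
def q (m r4 : Nat) : Nat := foldA (Nat.land (Nat.mul m 65535) (pl r4))

/-- the conflicts -/
def w (m0 m1 m2 m3 r1 r2 r3 r4 : Nat) : Nat :=
  Nat.lor
    (Nat.lor (Nat.land (pl r3) (Nat.mul ones (q m0 r4)))
      (Nat.land (pl r2) (Nat.mul ones (q m1 r4))))
    (Nat.lor (Nat.land (pl r1) (Nat.mul ones (q m2 r4)))
      (Nat.land diag (Nat.mul ones (q m3 r4))))

/-- the values already used by letter 1 -/
def winj (r1 : Nat) : Nat := Nat.land diag (Nat.mul ones (foldA (Nat.land (pl r1) offdiag)))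

def y0 (m0 u : Nat) : Nat := Nat.shiftLeft m0 u
def y1 (m0 m1 r1 u : Nat) : Nat :=
  Nat.lor (Nat.mul m0 (fld r1 u)) (Nat.shiftLeft m1 u)
def y2 (m0 m1 m2 r1 r2 u : Nat) : Nat :=
  Nat.lor (Nat.lor (Nat.mul m0 (fld r2 u)) (Nat.mul m1 (fld r1 u))) (Nat.shiftLeft m2 u)
def y3 (m0 m1 m2 m3 r1 r2 r3 u : Nat) : Nat :=
  Nat.lor (Nat.lor (Nat.mul m0 (fld r3 u)) (Nat.mul m1 (fld r2 u)))
    (Nat.lor (Nat.mul m2 (fld r1 u)) (Nat.shiftLeft m3 u))

/-- Read `n` children from the stream and push them. -/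
noncomputable def kids (kn r1 r2 r3 r4 m0 m1 m2 m3 z c : Nat) (k : Nat → Stk → Bool)
    (n : Nat) : Nat → Nat → Stk → Bool :=
  @Nat.rec (fun _ => Nat → Nat → Stk → Bool)
    (fun d s st => @Bool.rec (fun _ => Bool) false (k d st)
      (Nat.beq (Nat.lor z s) ones))
    (fun _ ih d s st =>
      force (Nat.mod d 16) fun u =>
      force (Nat.div d 16) fun d' =>
      force (mk (Nat.lor (pl r1) (y0 m0 u)) (Nat.mul 4 c)) fun s1 =>
      force (mk (Nat.lor (pl r2) (y1 m0 m1 r1 u)) (Nat.add 1 (Nat.mul 4 c))) fun s2 =>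
      force (mk (Nat.lor (pl r3) (y2 m0 m1 m2 r1 r2 u)) (Nat.add 2 (Nat.mul 4 c))) fun s3 =>
      force (mk (Nat.lor (pl r4) (y3 m0 m1 m2 m3 r1 r2 r3 u)) (Nat.add 3 (Nat.mul 4 c)))
        fun s4 =>
      ih d' (Nat.lor s (Nat.shiftLeft 1 (Nat.mul 16 u))) (Stk.cons kn s1 s2 s3 s4 st)) n

/-- Treat the top of the stack by branching over the value of an arc. -/
noncomputable def step (inj : Bool) (d c : Nat) (st : Stk) (k : Nat → Stk → Bool) : Bool :=
  @Stk.rec (fun _ => Bool) false
    (fun kn r1 r2 r3 r4 rest _ =>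
      force (Nat.mod d 16) fun v =>
      force (Nat.mod d 64) fun a =>
      force (Nat.mod (Nat.div d 64) 16) fun n =>
      force (Nat.div d 1024) fun d' =>
      force (Nat.lor kn (Nat.shiftLeft 1 a)) fun kn' =>
      @Bool.rec (fun _ => Bool) false
        (@Bool.rec (fun _ => Bool)
          (@Bool.rec (fun _ => Bool)
            (kids kn' r1 r2 r3 r4 0 0 (Nat.shiftLeft 1 (Nat.mul 16 v)) (msk r1 v)
              (rows (w 0 0 (Nat.shiftLeft 1 (Nat.mul 16 v)) (msk r1 v) r1 r2 r3 r4))
              c k n d' 0 rest)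
            (kids kn' r1 r2 r3 r4 0 (Nat.shiftLeft 1 (Nat.mul 16 v)) (msk r1 v) (msk r2 v)
              (rows (w 0 (Nat.shiftLeft 1 (Nat.mul 16 v)) (msk r1 v) (msk r2 v) r1 r2 r3 r4))
              c k n d' 0 rest)
            (Nat.ble a 47))
          (kids kn' r1 r2 r3 r4 (Nat.shiftLeft 1 (Nat.mul 16 v)) (msk r1 v) (msk r2 v) (msk r3 v)
            (rows (@Bool.rec (fun _ => Nat)
              (w (Nat.shiftLeft 1 (Nat.mul 16 v)) (msk r1 v) (msk r2 v) (msk r3 v) r1 r2 r3 r4)
              (Nat.lor (winj r1)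
                (w (Nat.shiftLeft 1 (Nat.mul 16 v)) (msk r1 v) (msk r2 v) (msk r3 v)
                  r1 r2 r3 r4)) inj))
            c k n d' 0 rest)
          (Nat.ble a 31))
        (Nat.beq (Nat.land kn (Nat.shiftLeft 1 a)) 0)) st

/-- Process nodes from the stream `d` until it is at most `1`. -/
noncomputable def chunk (inj : Bool) (f : Nat) :
    Nat → Nat → Stk → (Nat → Stk → Bool) → Bool :=
  @Nat.rec (fun _ => Nat → Nat → Stk → (Nat → Stk → Bool) → Bool) (fun _ _ _ _ => false)
    (fun _ ih d c st k => @Bool.rec (fun _ => Bool)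
      (step inj d c st fun d' st' => force (Nat.succ c) fun c' => ih d' c' st' k)
      (k c st)
      (Nat.ble d 1)) f

noncomputable def isNil (st : Stk) : Bool :=
  @Stk.rec (fun _ => Bool) true (fun _ _ _ _ _ _ _ => false) st

noncomputable def run (inj : Bool) (l : List Nat) : Nat → Stk → Bool :=
  @List.rec Nat (fun _ => Nat → Stk → Bool) (fun _ st => isNil st)
    (fun n _ ih c st => chunk inj 1000 n c st ih) l

end Pool.Agent.W_MP_818d98_co.Chk
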