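import Mathlib
import Pool.Agent.W_MP_818d98_co.Checker

namespace Pool.Agent.W_MP_818d98_co.Chk

theorem force_eq (n : Nat) (k : Nat → Bool) : force n k = k n := by
  cases n <;> rfl

theorem testBit_mul (a : ℕ) : ∀ (m y x : ℕ), (∀ p, m.testBit p = true → 16 ∣ p) →
    y < 2 ^ 16 → x < 16 → (m * y).testBit (16 * a + x) = (m.testBit (16 * a) && y.testBit x) := by
  have key : ∀ (m : ℕ), (∀ p, m.testBit p = true → 16 ∣ p) → m % 2 ^ 16 = m % 2 := by
    intro m hm
    apply Nat.eq_of_testBit_eq
    intro p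
    rw [Nat.testBit_mod_two_pow]
    have h2 : m % 2 = m % 2 ^ 1 := by simp
    rw [h2, Nat.testBit_mod_two_pow]
    by_cases hp0 : p = 0
    · subst hp0; simp
    · by_cases hp : p < 16
      · have : m.testBit p = false := by
          by_contra h
          have h3 := hm p (by simpa using h)
          omega
        simp [this]
      · simp [hp]
        omega
  induction a with
  | zero =>
    intro m y x hm hy hx
    have h1 : m * y = 2 ^ 16 * ((m / 2 ^ 16) * y) + (m % 2) * y := by
      have h2 := Nat.div_add_mod m (2 ^ 16)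
      rw [key m hm] at h2
      conv_lhs => rw [← h2]
      ring
    have h3 : (m % 2) * y < 2 ^ 16 := by
      rcases Nat.mod_two_eq_zero_or_one m with h | h <;> rw [h] <;> simp <;> omega
    rw [h1, Nat.testBit_two_pow_mul_add _ h3]
    simp only [Nat.mul_zero, Nat.zero_add, hx, if_true]
    rcases Nat.mod_two_eq_zero_or_one m with h | h <;> simp [h, Nat.testBit_zero]
  | succ a ih =>
    intro m y x hm hy hx
    have h1 : m * y = 2 ^ 16 * ((m / 2 ^ 16) * y) + (m % 2) * y := by
      have h2 := Nat.div_add_mod m (2 ^ 16)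
      rw [key m hm] at h2
      conv_lhs => rw [← h2]
      ring
    have h3 : (m % 2) * y < 2 ^ 16 := by
      rcases Nat.mod_two_eq_zero_or_one m with h | h <;> rw [h] <;> simp <;> omega
    rw [h1, Nat.testBit_two_pow_mul_add _ h3]
    have h4 : ¬ (16 * (a + 1) + x < 16) := by omega
    rw [if_neg h4]
    have h5 : 16 * (a + 1) + x - 16 = 16 * a + x := by omega
    rw [h5, ih (m / 2 ^ 16) y x ?_ hy hx]
    · rw [Nat.testBit_div_two_pow]
      congr 1
    · intro p hp
      rw [Nat.testBit_div_two_pow] at hp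
      have := hm _ hp
      omega

theorem ones_testBit {p : ℕ} (h : ones.testBit p = true) : 16 ∣ p ∧ p < 256 := by
  have hlt : ones < 2 ^ 256 := by decide +kernel
  by_cases hp : p < 256
  · have : ∀ p < 256, ones.testBit p = true → 16 ∣ p := by decide +kernel
    exact ⟨this p hp h, hp⟩
  · rw [Nat.testBit_lt_two_pow (lt_of_lt_of_le hlt (Nat.pow_le_pow_right (by norm_num) (by omega)))] at h
    exact absurd h (by simp)

theorem ones_testBit' {u : ℕ} (h : u < 16) : ones.testBit (16 * u) = true := by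
  have : ∀ u < 16, ones.testBit (16 * u) = true := by decide +kernel
  exact this u h

theorem diag_testBit {a x : ℕ} (ha : a < 16) (hx : x < 16)
    (h : diag.testBit (16 * a + x) = true) : a = x := by
  have : ∀ a < 16, ∀ x < 16, diag.testBit (16 * a + x) = true → a = x := by decide +kernel
  exact this a ha x hx h

theorem offdiag_testBit {a x : ℕ} (ha : a < 16) (hx : x < 16)
    (h : offdiag.testBit (16 * a + x) = true) : a ≠ x := by
  have : ∀ a < 16, ∀ x < 16, offdiag.testBit (16 * a + x) = true → a ≠ x := by decide +kernel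
  exact this a ha x hx h

theorem low_testBit (x : ℕ) : (65535 : ℕ).testBit x = decide (x < 16) := by
  have : (65535 : ℕ) = 2 ^ 16 - 1 := by norm_num
  rw [this, Nat.testBit_two_pow_sub_one]

theorem pl_mk (p s : ℕ) : pl (mk p s) = p := by
  unfold pl mk
  show ((p <<< 64) + s % 18446744073709551616) >>> 64 = p
  rw [Nat.shiftRight_eq_div_pow, Nat.shiftLeft_eq]
  have : s % 18446744073709551616 < 2 ^ 64 := by
    have : (18446744073709551616 : ℕ) = 2 ^ 64 := by norm_num
    rw [this]
    exact Nat.mod_lt _ (by norm_num)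
  omega

theorem pl_testBit (r p : ℕ) : (pl r).testBit p = r.testBit (64 + p) := by
  unfold pl
  exact Nat.testBit_shiftRight r

theorem fld_testBit {r u x : ℕ} (h : (fld r u).testBit x = true) :
    (pl r).testBit (16 * u + x) = true ∧ x < 16 := by
  have h1 : (fld r u).testBit x = (r.testBit (64 + 16 * u + x) && (65535 : ℕ).testBit x) := by
    show ((r >>> (64 + 16 * u)) &&& 65535).testBit x = _
    rw [Nat.testBit_and, Nat.testBit_shiftRight]
  rw [h1, low_testBit] at h
  simp only [Bool.and_eq_true, decide_eq_true_eq] at h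
  refine ⟨?_, h.2⟩
  rw [pl_testBit, ← h.1]
  congr 1
  omega

theorem fld_lt (r u : ℕ) : fld r u < 2 ^ 16 := by
  show ((r >>> (64 + 16 * u)) &&& 65535) < 2 ^ 16
  exact lt_of_le_of_lt Nat.and_le_right (by norm_num)

theorem msk_testBit {r v p : ℕ} (h : (msk r v).testBit p = true) :
    (pl r).testBit (p + v) = true ∧ 16 ∣ p ∧ p < 256 := by
  have h1 : (msk r v).testBit p = (r.testBit (64 + v + p) && ones.testBit p) := by
    show ((r >>> (64 + v)) &&& ones).testBit p = _
    rw [Nat.testBit_and, Nat.testBit_shiftRight]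
  rw [h1] at h
  simp only [Bool.and_eq_true] at h
  refine ⟨?_, ones_testBit h.2⟩
  rw [pl_testBit, ← h.1]
  congr 1
  omega

theorem sh_testBit {k x p : ℕ} (h : (sh k x).testBit p = true) :
    ∃ e, (e = 0 ∨ e = k) ∧ x.testBit (p + e) = true := by
  have h1 : (sh k x).testBit p = (x.testBit p || x.testBit (k + p)) := by
    show (x ||| (x >>> k)).testBit p = _
    rw [Nat.testBit_or, Nat.testBit_shiftRight]
  rw [h1, Bool.or_eq_true] at h
  rcases h with h | h
  · exact ⟨0, Or.inl rfl, by simpa using h⟩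
  · exact ⟨k, Or.inr rfl, by rw [Nat.add_comm]; exact h⟩

theorem rows_testBit {x u : ℕ} (h : (rows x).testBit (16 * u) = true) :
    ∃ y < 16, x.testBit (16 * u + y) = true := by
  have h1 : (rows x).testBit (16 * u) = ((sh 1 (sh 2 (sh 4 (sh 8 x)))).testBit (16 * u) &&
      ones.testBit (16 * u)) := by
    show ((sh 1 (sh 2 (sh 4 (sh 8 x)))) &&& ones).testBit (16 * u) = _
    rw [Nat.testBit_and]
  rw [h1, Bool.and_eq_true] at h
  obtain ⟨e1, he1, h⟩ := sh_testBit h.1
  obtain ⟨e2, he2, h⟩ := sh_testBit h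
  obtain ⟨e3, he3, h⟩ := sh_testBit h
  obtain ⟨e4, he4, h⟩ := sh_testBit h
  refine ⟨e1 + e2 + e3 + e4, by omega, ?_⟩
  rw [← h]
  congr 1
  omega

theorem sh_testBit_mk0 {k x p : ℕ} (h : x.testBit p = true) : (sh k x).testBit p = true := by
  show (x ||| (x >>> k)).testBit p = _
  rw [Nat.testBit_or, h, Bool.true_or]

theorem sh_testBit_mk1 {k x p : ℕ} (h : x.testBit (p + k) = true) :
    (sh k x).testBit p = true := by
  show (x ||| (x >>> k)).testBit p = _
  rw [Nat.testBit_or, Nat.testBit_shiftRight, Nat.add_comm k p, h, Bool.or_true]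

theorem rows_testBit_mk {x u y : ℕ} (hy : y < 16) (hu : u < 16)
    (h : x.testBit (16 * u + y) = true) : (rows x).testBit (16 * u) = true := by
  have h1 : (rows x).testBit (16 * u) = ((sh 1 (sh 2 (sh 4 (sh 8 x)))).testBit (16 * u) &&
      ones.testBit (16 * u)) := by
    show ((sh 1 (sh 2 (sh 4 (sh 8 x)))) &&& ones).testBit (16 * u) = _
    rw [Nat.testBit_and]
  rw [h1, ones_testBit' hu, Bool.and_true]
  have key : ∀ (k z p e : ℕ), (e = 0 ∨ e = k) → z.testBit (p + e) = true →
      (sh k z).testBit p = true := by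
    intro k z p e he hz
    rcases he with rfl | rfl
    · exact sh_testBit_mk0 hz
    · exact sh_testBit_mk1 hz
  have e1 : ∃ e1 e2 e3 e4, (e1 = 0 ∨ e1 = 1) ∧ (e2 = 0 ∨ e2 = 2) ∧ (e3 = 0 ∨ e3 = 4) ∧
      (e4 = 0 ∨ e4 = 8) ∧ e1 + e2 + e3 + e4 = y := by
    refine ⟨y % 2, y / 2 % 2 * 2, y / 4 % 2 * 4, y / 8 * 8, by omega, by omega, by omega,
      by omega, by omega⟩
  obtain ⟨e1, e2, e3, e4, f1, f2, f3, f4, hsum⟩ := e1
  apply key 1 _ _ e1 f1
  apply key 2 _ _ e2 f2
  apply key 4 _ _ e3 f3
  apply key 8 _ _ e4 f4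
  rw [← h]
  congr 1
  omega

theorem foldA_testBit {x y : ℕ} (h : (foldA x).testBit y = true) :
    y < 16 ∧ ∃ a < 16, x.testBit (16 * a + y) = true := by
  have h1 : (foldA x).testBit y = ((sh 16 (sh 32 (sh 64 (sh 128 x)))).testBit y &&
      (65535 : ℕ).testBit y) := by
    show ((sh 16 (sh 32 (sh 64 (sh 128 x)))) &&& 65535).testBit y = _
    rw [Nat.testBit_and]
  rw [h1, Bool.and_eq_true, low_testBit] at h
  obtain ⟨h, hy⟩ := h
  obtain ⟨e1, he1, h⟩ := sh_testBit h
  obtain ⟨e2, he2, h⟩ := sh_testBit h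
  obtain ⟨e3, he3, h⟩ := sh_testBit h
  obtain ⟨e4, he4, h⟩ := sh_testBit h
  refine ⟨by simpa using hy, (e1 + e2 + e3 + e4) / 16, by omega, ?_⟩
  rw [← h]
  congr 1
  omega

theorem foldA_lt (x : ℕ) : foldA x < 2 ^ 16 := by
  show ((sh 16 (sh 32 (sh 64 (sh 128 x)))) &&& 65535) < 2 ^ 16
  exact lt_of_le_of_lt Nat.and_le_right (by norm_num)

theorem q_testBit {m r x : ℕ} (hm : ∀ p, m.testBit p = true → 16 ∣ p)
    (h : (q m r).testBit x = true) :
    ∃ a < 16, m.testBit (16 * a) = true ∧ (pl r).testBit (16 * a + x) = true := by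
  obtain ⟨hx, a, ha, h⟩ := foldA_testBit h
  have h1 : (Nat.land (Nat.mul m 65535) (pl r)).testBit (16 * a + x) =
      ((m * 65535).testBit (16 * a + x) && (pl r).testBit (16 * a + x)) := by
    show ((m * 65535) &&& (pl r)).testBit _ = _
    rw [Nat.testBit_and]
  rw [h1, testBit_mul a m 65535 x hm (by norm_num) hx, Bool.and_eq_true, Bool.and_eq_true] at h
  exact ⟨a, ha, h.1.1, h.2⟩

theorem onesMul_testBit {y u x : ℕ} (hy : y < 2 ^ 16) (hx : x < 16)
    (h : (Nat.mul ones y).testBit (16 * u + x) = true) : y.testBit x = true := by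
  have h1 := testBit_mul u ones y x (fun p hp => (ones_testBit hp).1) hy hx
  change (ones * y).testBit (16 * u + x) = true at h
  rw [h1, Bool.and_eq_true] at h
  exact h.2

theorem shl_testBit {m u a x : ℕ} (hm : ∀ p, m.testBit p = true → 16 ∣ p) (hu : u < 16)
    (hx : x < 16) (h : (Nat.shiftLeft m u).testBit (16 * a + x) = true) :
    x = u ∧ m.testBit (16 * a) = true := by
  change (m <<< u).testBit (16 * a + x) = true at h
  rw [Nat.testBit_shiftLeft] at h
  simp only [Bool.and_eq_true, decide_eq_true_eq] at h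
  have h1 := hm _ h.2
  have : x = u := by omega
  subst this
  refine ⟨rfl, ?_⟩
  rw [← h.2]
  congr 1
  omega

theorem one_shl_testBit {n p : ℕ} (h : (Nat.shiftLeft 1 n).testBit p = true) : p = n := by
  change (1 <<< n).testBit p = true at h
  rw [Nat.one_shiftLeft, Nat.testBit_two_pow] at h
  simpa using (of_decide_eq_true h).symm

theorem one_shl_testBit_self (n : ℕ) : (Nat.shiftLeft 1 n).testBit n = true := by
  change (1 <<< n).testBit n = true
  rw [Nat.one_shiftLeft, Nat.testBit_two_pow_self]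

end Pool.Agent.W_MP_818d98_co.Chk
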