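import Mathlib
import Pool.Agent.W_MP_818d98_co.Bits

namespace Pool.Agent.W_MP_818d98_co.Chk

/-- the vertex reached from `a` by the word `l` -/
def ep (F : ℕ → ℕ → ℕ) : ℕ → List ℕ → ℕ
  | a, [] => a
  | a, i :: l => ep F (F i a) l

/-- all arcs used by the word `l` from `a` are in `K` -/
def arcs (F : ℕ → ℕ → ℕ) (K : ℕ) : ℕ → List ℕ → Prop
  | _, [] => True
  | a, i :: l => K.testBit (16 * i + a) = true ∧ arcs F K (F i a) l

def Ok (l : List ℕ) : Prop := ∀ i ∈ l, 1 ≤ i ∧ i ≤ 3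

structure Good (F : ℕ → ℕ → ℕ) : Prop where
  lt : ∀ i a, 1 ≤ i → i ≤ 3 → a < 16 → F i a < 16
  inj : ∀ a < 16, ∀ l l', Ok l → Ok l' → l.sum ≤ 4 → l'.sum ≤ 4 → ep F a l = ep F a l' → l = l'

def Reach (F : ℕ → ℕ → ℕ) (K a t x : ℕ) : Prop :=
  ∃ l, Ok l ∧ l.sum ≤ t ∧ arcs F K a l ∧ ep F a l = x

def Reach4 (F : ℕ → ℕ → ℕ) (K a x : ℕ) : Prop :=
  Reach F K a 4 x ∨ ∀ l, Ok l → l.sum ≤ 4 → ep F a l ≠ x

structure Sound (F : ℕ → ℕ → ℕ) (kn p1 p2 p3 p4 : ℕ) : Prop where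
  kn0 : ∀ a < 16, kn.testBit a = true
  h1 : ∀ a x, a < 16 → x < 16 → p1.testBit (16 * a + x) = true → Reach F kn a 1 x
  h2 : ∀ a x, a < 16 → x < 16 → p2.testBit (16 * a + x) = true → Reach F kn a 2 x
  h3 : ∀ a x, a < 16 → x < 16 → p3.testBit (16 * a + x) = true → Reach F kn a 3 x
  h4 : ∀ a x, a < 16 → x < 16 → p4.testBit (16 * a + x) = true → Reach4 F kn a x

theorem ep_append (F : ℕ → ℕ → ℕ) : ∀ (l : List ℕ) (a : ℕ) (l' : List ℕ),
    ep F a (l ++ l') = ep F (ep F a l) l'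
  | [], _, _ => rfl
  | i :: l, a, l' => by
    show ep F (F i a) (l ++ l') = ep F (ep F (F i a) l) l'
    exact ep_append F l _ l'

theorem arcs_append (F : ℕ → ℕ → ℕ) (K : ℕ) : ∀ (l : List ℕ) (a : ℕ) (l' : List ℕ),
    arcs F K a (l ++ l') ↔ arcs F K a l ∧ arcs F K (ep F a l) l'
  | [], a, l' => by simp [arcs, ep]
  | i :: l, a, l' => by
    show (_ ∧ arcs F K (F i a) (l ++ l')) ↔ ((_ ∧ arcs F K (F i a) l) ∧
      arcs F K (ep F (F i a) l) l')
    rw [arcs_append F K l (F i a) l', and_assoc]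

theorem arcs_mono {F : ℕ → ℕ → ℕ} {K K' : ℕ}
    (h : ∀ p, K.testBit p = true → K'.testBit p = true) :
    ∀ (l : List ℕ) (a : ℕ), arcs F K a l → arcs F K' a l
  | [], _, _ => trivial
  | _ :: l, _, h1 => ⟨h _ h1.1, arcs_mono h l _ h1.2⟩

theorem Ok_append {l l' : List ℕ} (h : Ok l) (h' : Ok l') : Ok (l ++ l') := by
  intro i hi
  rcases List.mem_append.1 hi with hi | hi
  · exact h i hi
  · exact h' i hi

theorem Ok_cons {i : ℕ} {l : List ℕ} (h1 : 1 ≤ i) (h3 : i ≤ 3) (h : Ok l) : Ok (i :: l) := by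
  intro j hj
  rcases List.mem_cons.1 hj with hj | hj
  · subst hj; exact ⟨h1, h3⟩
  · exact h j hj

theorem ep_lt {F : ℕ → ℕ → ℕ} (hF : Good F) : ∀ (l : List ℕ) (a : ℕ), Ok l → a < 16 →
    ep F a l < 16
  | [], _, _, h => h
  | i :: l, a, h, ha => ep_lt hF l (F i a) (fun j hj => h j (List.mem_cons_of_mem _ hj))
      (hF.lt i a (h i List.mem_cons_self).1 (h i List.mem_cons_self).2 ha)

theorem Reach.mono {F : ℕ → ℕ → ℕ} {K K' a t x : ℕ}
    (h : ∀ p, K.testBit p = true → K'.testBit p = true) (hr : Reach F K a t x) :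
    Reach F K' a t x := by
  obtain ⟨l, h1, h2, h3, h4⟩ := hr
  exact ⟨l, h1, h2, arcs_mono h l a h3, h4⟩

theorem Reach4.mono {F : ℕ → ℕ → ℕ} {K K' a x : ℕ}
    (h : ∀ p, K.testBit p = true → K'.testBit p = true) (hr : Reach4 F K a x) :
    Reach4 F K' a x := by
  rcases hr with hr | hr
  · exact Or.inl (hr.mono h)
  · exact Or.inr hr

/-- `m` lists vertices from which `v` is reached by a word `l` with `l.sum + i ≤ j + 1`. -/
def MS (F : ℕ → ℕ → ℕ) (K i v j m : ℕ) : Prop :=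
  (∀ p, m.testBit p = true → 16 ∣ p) ∧
    ∀ a < 16, m.testBit (16 * a) = true →
      ∃ l, Ok l ∧ l.sum + i ≤ j + 1 ∧ arcs F K a l ∧ ep F a l = v

theorem MS_zero (F : ℕ → ℕ → ℕ) (K i v j : ℕ) : MS F K i v j 0 := by
  refine ⟨?_, ?_⟩
  · intro p hp; simp at hp
  · intro a _ ha; simp at ha

theorem MS_self (F : ℕ → ℕ → ℕ) (K i v j : ℕ) (hj : i ≤ j + 1) :
    MS F K i v j (Nat.shiftLeft 1 (Nat.mul 16 v)) := by
  refine ⟨?_, ?_⟩
  · intro p hp
    have := one_shl_testBit hp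
    change p = 16 * v at this
    omega
  · intro a _ ha
    have := one_shl_testBit ha
    change 16 * a = 16 * v at this
    have hav : a = v := by omega
    subst hav
    exact ⟨[], by intro i hi; simp at hi, by simpa using hj, trivial, rfl⟩

theorem MS_msk (F : ℕ → ℕ → ℕ) (K i v j r s : ℕ) (hv : v < 16) (hj : s + i ≤ j + 1)
    (h : ∀ a x, a < 16 → x < 16 → (pl r).testBit (16 * a + x) = true → Reach F K a s x) :
    MS F K i v j (msk r v) := by
  refine ⟨?_, ?_⟩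
  · intro p hp
    exact (msk_testBit hp).2.1
  · intro a ha hm
    obtain ⟨l, h1, h2, h3, h4⟩ := h a v ha hv (msk_testBit hm).1
    exact ⟨l, h1, by omega, h3, h4⟩

/-- The four ways to use the arc `(i, v)`. -/
structure Quad (F : ℕ → ℕ → ℕ) (K i v m0 m1 m2 m3 : ℕ) : Prop where
  q0 : MS F K i v 0 m0
  q1 : MS F K i v 1 m1
  q2 : MS F K i v 2 m2
  q3 : MS F K i v 3 m3

theorem quad1 {F : ℕ → ℕ → ℕ} {kn r1 r2 r3 r4 v : ℕ}
    (hs : Sound F kn (pl r1) (pl r2) (pl r3) (pl r4)) (hv : v < 16) :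
    Quad F kn 1 v (Nat.shiftLeft 1 (Nat.mul 16 v)) (msk r1 v) (msk r2 v) (msk r3 v) :=
  ⟨MS_self F kn 1 v 0 (by omega), MS_msk F kn 1 v 1 r1 1 hv (by omega) hs.h1,
    MS_msk F kn 1 v 2 r2 2 hv (by omega) hs.h2, MS_msk F kn 1 v 3 r3 3 hv (by omega) hs.h3⟩

theorem quad2 {F : ℕ → ℕ → ℕ} {kn r1 r2 r3 r4 v : ℕ}
    (hs : Sound F kn (pl r1) (pl r2) (pl r3) (pl r4)) (hv : v < 16) :
    Quad F kn 2 v 0 (Nat.shiftLeft 1 (Nat.mul 16 v)) (msk r1 v) (msk r2 v) :=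
  ⟨MS_zero F kn 2 v 0, MS_self F kn 2 v 1 (by omega),
    MS_msk F kn 2 v 2 r1 1 hv (by omega) hs.h1, MS_msk F kn 2 v 3 r2 2 hv (by omega) hs.h2⟩

theorem quad3 {F : ℕ → ℕ → ℕ} {kn r1 r2 r3 r4 v : ℕ}
    (hs : Sound F kn (pl r1) (pl r2) (pl r3) (pl r4)) (hv : v < 16) :
    Quad F kn 3 v 0 0 (Nat.shiftLeft 1 (Nat.mul 16 v)) (msk r1 v) :=
  ⟨MS_zero F kn 3 v 0, MS_zero F kn 3 v 1, MS_self F kn 3 v 2 (by omega),
    MS_msk F kn 3 v 3 r1 1 hv (by omega) hs.h1⟩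

theorem conflict_aux {F : ℕ → ℕ → ℕ} (hF : Good F) {kn i v j s m r4 x : ℕ}
    (hi1 : 1 ≤ i) (hi3 : i ≤ 3) (hkn : kn.testBit (16 * i + v) = false)
    (hm : MS F kn i v j m)
    (h4 : ∀ a x, a < 16 → x < 16 → (pl r4).testBit (16 * a + x) = true → Reach4 F kn a x)
    (hx : x < 16) (hjs : j + s = 3) (hr : Reach F kn (F i v) s x)
    (hq : (q m r4).testBit x = true) : False := by
  obtain ⟨a, ha, hma, hra⟩ := q_testBit hm.1 hq
  obtain ⟨l0, k1, k2, k3, k4⟩ := hm.2 a ha hma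
  obtain ⟨l2, e1, e2, e3, e4⟩ := hr
  have hok : Ok (l0 ++ i :: l2) := Ok_append k1 (Ok_cons hi1 hi3 e1)
  have hsum : (l0 ++ i :: l2).sum ≤ 4 := by
    rw [List.sum_append, List.sum_cons]; omega
  have hep : ep F a (l0 ++ i :: l2) = x := by
    rw [ep_append, k4]; exact e4
  rcases h4 a x ha hx hra with ⟨l', f1, f2, f3, f4⟩ | hno
  · have heq := hF.inj a ha _ _ hok f1 hsum f2 (hep.trans f4.symm)
    rw [← heq, arcs_append, k4] at f3
    have := f3.2.1
    rw [hkn] at this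
    exact absurd this (by simp)
  · exact hno _ hok hsum hep

theorem conflict {F : ℕ → ℕ → ℕ} (hF : Good F) {kn r1 r2 r3 r4 i v m0 m1 m2 m3 u : ℕ}
    (hs : Sound F kn (pl r1) (pl r2) (pl r3) (pl r4))
    (hi1 : 1 ≤ i) (hi3 : i ≤ 3) (hkn : kn.testBit (16 * i + v) = false)
    (hq : Quad F kn i v m0 m1 m2 m3) (hu : u < 16) (hFu : F i v = u)
    (h : (rows (w m0 m1 m2 m3 r1 r2 r3 r4)).testBit (16 * u) = true) : False := by
  obtain ⟨x, hx, h⟩ := rows_testBit h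
  have hw : (w m0 m1 m2 m3 r1 r2 r3 r4).testBit (16 * u + x) =
    ((((pl r3).testBit (16 * u + x) && (Nat.mul ones (q m0 r4)).testBit (16 * u + x)) ||
      ((pl r2).testBit (16 * u + x) && (Nat.mul ones (q m1 r4)).testBit (16 * u + x))) ||
    (((pl r1).testBit (16 * u + x) && (Nat.mul ones (q m2 r4)).testBit (16 * u + x)) ||
      (diag.testBit (16 * u + x) && (Nat.mul ones (q m3 r4)).testBit (16 * u + x)))) := by
    show ((((pl r3) &&& (Nat.mul ones (q m0 r4))) ||| ((pl r2) &&& (Nat.mul ones (q m1 r4)))) |||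
      (((pl r1) &&& (Nat.mul ones (q m2 r4))) |||
        (diag &&& (Nat.mul ones (q m3 r4))))).testBit _ = _
    simp only [Nat.testBit_or, Nat.testBit_and]
  rw [hw] at h
  simp only [Bool.or_eq_true, Bool.and_eq_true] at h
  rcases h with (⟨ha, hb⟩ | ⟨ha, hb⟩) | (⟨ha, hb⟩ | ⟨ha, hb⟩)
  · have hb' := onesMul_testBit (foldA_lt _) hx hb
    exact conflict_aux hF hi1 hi3 hkn hq.q0 hs.h4 hx (s := 3) rfl
      (hFu ▸ hs.h3 u x hu hx ha) hb'
  · have hb' := onesMul_testBit (foldA_lt _) hx hb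
    exact conflict_aux hF hi1 hi3 hkn hq.q1 hs.h4 hx (s := 2) rfl
      (hFu ▸ hs.h2 u x hu hx ha) hb'
  · have hb' := onesMul_testBit (foldA_lt _) hx hb
    exact conflict_aux hF hi1 hi3 hkn hq.q2 hs.h4 hx (s := 1) rfl
      (hFu ▸ hs.h1 u x hu hx ha) hb'
  · have hb' := onesMul_testBit (foldA_lt _) hx hb
    have hux := diag_testBit hu hx ha
    refine conflict_aux hF hi1 hi3 hkn hq.q3 hs.h4 hx (s := 0) rfl ?_ hb'
    exact ⟨[], by intro i hi; simp at hi, by simp, trivial, by rw [hFu, hux]; rfl⟩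

theorem conflict_inj {F : ℕ → ℕ → ℕ} {kn r1 r2 r3 r4 v u : ℕ}
    (hs : Sound F kn (pl r1) (pl r2) (pl r3) (pl r4)) (hv : v < 16)
    (hinj : ∀ a < 16, ∀ b < 16, F 1 a = F 1 b → a = b)
    (hkn : kn.testBit (16 * 1 + v) = false)
    (hu : u < 16) (hFu : F 1 v = u)
    (h : (rows (winj r1)).testBit (16 * u) = true) : False := by
  obtain ⟨x, hx, h⟩ := rows_testBit h
  have hw : (winj r1).testBit (16 * u + x) = (diag.testBit (16 * u + x) &&
      (Nat.mul ones (foldA (Nat.land (pl r1) offdiag))).testBit (16 * u + x)) := by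
    show (diag &&& (Nat.mul ones (foldA (Nat.land (pl r1) offdiag)))).testBit _ = _
    rw [Nat.testBit_and]
  rw [hw, Bool.and_eq_true] at h
  obtain ⟨ha, hb⟩ := h
  have hux := diag_testBit hu hx ha
  obtain ⟨_, a, ha16, hb'⟩ := foldA_testBit (onesMul_testBit (foldA_lt _) hx hb)
  have hc : (Nat.land (pl r1) offdiag).testBit (16 * a + x) =
      ((pl r1).testBit (16 * a + x) && offdiag.testBit (16 * a + x)) := by
    show ((pl r1) &&& offdiag).testBit _ = _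
    rw [Nat.testBit_and]
  rw [hc, Bool.and_eq_true] at hb'
  have hax := offdiag_testBit ha16 hx hb'.2
  obtain ⟨l, k1, k2, k3, k4⟩ := hs.h1 a x ha16 hx hb'.1
  match l, k1, k2, k3, k4 with
  | [], _, _, _, k4 => exact hax k4
  | i :: l', k1, k2, k3, k4 =>
    have hi := k1 i List.mem_cons_self
    rw [List.sum_cons] at k2
    have hi1 : i = 1 := by omega
    subst hi1
    have hl' : l' = [] := by
      match l', k1, k2 with
      | [], _, _ => rfl
      | j :: l'', k1, k2 =>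
        have hj := k1 j (by simp)
        rw [List.sum_cons] at k2
        omega
    subst hl'
    have h5 : F 1 a = x := k4
    have h6 : kn.testBit (16 * 1 + a) = true := k3.1
    have h7 : a = v := hinj a ha16 v hv (by rw [h5, hFu, hux])
    rw [h7, hkn] at h6
    exact absurd h6 (by simp)

theorem compose {F : ℕ → ℕ → ℕ} {K i v j s a x : ℕ} (hi1 : 1 ≤ i) (hi3 : i ≤ 3)
    (hK : K.testBit (16 * i + v) = true)
    (h0 : ∃ l, Ok l ∧ l.sum + i ≤ j + 1 ∧ arcs F K a l ∧ ep F a l = v)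
    (h1 : Reach F K (F i v) s x) : Reach F K a (j + 1 + s) x := by
  obtain ⟨l0, k1, k2, k3, k4⟩ := h0
  obtain ⟨l2, e1, e2, e3, e4⟩ := h1
  refine ⟨l0 ++ i :: l2, Ok_append k1 (Ok_cons hi1 hi3 e1), ?_, ?_, ?_⟩
  · rw [List.sum_append, List.sum_cons]; omega
  · rw [arcs_append, k4]; exact ⟨k3, hK, e3⟩
  · rw [ep_append, k4]; exact e4

theorem Reach_self (F : ℕ → ℕ → ℕ) (K a : ℕ) : Reach F K a 0 a :=
  ⟨[], by intro i hi; simp at hi, by simp, trivial, rfl⟩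

theorem Reach.le {F : ℕ → ℕ → ℕ} {K a t t' x : ℕ} (h : t ≤ t') (hr : Reach F K a t x) :
    Reach F K a t' x := by
  obtain ⟨l, h1, h2, h3, h4⟩ := hr
  exact ⟨l, h1, h2.trans h, h3, h4⟩

theorem MS.mono {F : ℕ → ℕ → ℕ} {K K' i v j m : ℕ}
    (h : ∀ p, K.testBit p = true → K'.testBit p = true) (hm : MS F K i v j m) :
    MS F K' i v j m := by
  refine ⟨hm.1, fun a ha hma => ?_⟩
  obtain ⟨l, h1, h2, h3, h4⟩ := hm.2 a ha hma
  exact ⟨l, h1, h2, arcs_mono h l a h3, h4⟩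

theorem mulfld {F : ℕ → ℕ → ℕ} {K i v j s m r u : ℕ} (hi1 : 1 ≤ i) (hi3 : i ≤ 3)
    (hK : K.testBit (16 * i + v) = true) (hu : u < 16) (hFu : F i v = u)
    (hm : MS F K i v j m)
    (h : ∀ a x, a < 16 → x < 16 → (pl r).testBit (16 * a + x) = true → Reach F K a s x)
    {a x : ℕ} (ha : a < 16) (hx : x < 16)
    (hb : (Nat.mul m (fld r u)).testBit (16 * a + x) = true) : Reach F K a (j + 1 + s) x := by
  have h1 := testBit_mul a m (fld r u) x hm.1 (fld_lt r u) hx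
  change (m * fld r u).testBit (16 * a + x) = true at hb
  rw [h1, Bool.and_eq_true] at hb
  refine compose hi1 hi3 hK (hm.2 a ha hb.1) ?_
  rw [hFu]
  exact h u x hu hx (fld_testBit hb.2).1

theorem shlm {F : ℕ → ℕ → ℕ} {K i v j m u : ℕ} (hi1 : 1 ≤ i) (hi3 : i ≤ 3)
    (hK : K.testBit (16 * i + v) = true) (hu : u < 16) (hFu : F i v = u)
    (hm : MS F K i v j m)
    {a x : ℕ} (ha : a < 16) (hx : x < 16)
    (hb : (Nat.shiftLeft m u).testBit (16 * a + x) = true) : Reach F K a (j + 1) x := by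
  obtain ⟨h1, h2⟩ := shl_testBit hm.1 hu hx hb
  refine compose (s := 0) hi1 hi3 hK (hm.2 a ha h2) ?_
  rw [hFu, h1]
  exact Reach_self F K u

theorem lor_testBit (x y p : ℕ) : (Nat.lor x y).testBit p = (x.testBit p || y.testBit p) :=
  Nat.testBit_or x y p

theorem update {F : ℕ → ℕ → ℕ} {kn r1 r2 r3 r4 i v m0 m1 m2 m3 u : ℕ}
    (hs : Sound F kn (pl r1) (pl r2) (pl r3) (pl r4))
    (hi1 : 1 ≤ i) (hi3 : i ≤ 3)
    (hq : Quad F kn i v m0 m1 m2 m3) (hu : u < 16) (hFu : F i v = u) :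
    Sound F (Nat.lor kn (Nat.shiftLeft 1 (16 * i + v)))
      (Nat.lor (pl r1) (y0 m0 u)) (Nat.lor (pl r2) (y1 m0 m1 r1 u))
      (Nat.lor (pl r3) (y2 m0 m1 m2 r1 r2 u)) (Nat.lor (pl r4) (y3 m0 m1 m2 m3 r1 r2 r3 u)) := by
  set K' := Nat.lor kn (Nat.shiftLeft 1 (16 * i + v)) with hK'
  have hmono : ∀ p, kn.testBit p = true → K'.testBit p = true := by
    intro p hp
    rw [hK', lor_testBit, hp, Bool.true_or]
  have hK : K'.testBit (16 * i + v) = true := by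
    rw [hK', lor_testBit, one_shl_testBit_self, Bool.or_true]
  have g1 : ∀ a x, a < 16 → x < 16 → (pl r1).testBit (16 * a + x) = true → Reach F K' a 1 x :=
    fun a x ha hx h => (hs.h1 a x ha hx h).mono hmono
  have g2 : ∀ a x, a < 16 → x < 16 → (pl r2).testBit (16 * a + x) = true → Reach F K' a 2 x :=
    fun a x ha hx h => (hs.h2 a x ha hx h).mono hmono
  have g3 : ∀ a x, a < 16 → x < 16 → (pl r3).testBit (16 * a + x) = true → Reach F K' a 3 x :=
    fun a x ha hx h => (hs.h3 a x ha hx h).mono hmono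
  have q0 := hq.q0.mono hmono
  have q1 := hq.q1.mono hmono
  have q2 := hq.q2.mono hmono
  have q3 := hq.q3.mono hmono
  refine ⟨fun a ha => hmono a (hs.kn0 a ha), ?_, ?_, ?_, ?_⟩
  · intro a x ha hx h
    rw [lor_testBit, Bool.or_eq_true] at h
    rcases h with h | h
    · exact g1 a x ha hx h
    · exact shlm hi1 hi3 hK hu hFu q0 ha hx h
  · intro a x ha hx h
    unfold y1 at h
    rw [lor_testBit, lor_testBit, Bool.or_eq_true, Bool.or_eq_true] at h
    rcases h with h | h | h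
    · exact g2 a x ha hx h
    · exact mulfld hi1 hi3 hK hu hFu q0 g1 ha hx h
    · exact shlm hi1 hi3 hK hu hFu q1 ha hx h
  · intro a x ha hx h
    unfold y2 at h
    rw [lor_testBit, lor_testBit, lor_testBit, Bool.or_eq_true, Bool.or_eq_true,
      Bool.or_eq_true] at h
    rcases h with h | (h | h) | h
    · exact g3 a x ha hx h
    · exact mulfld hi1 hi3 hK hu hFu q0 g2 ha hx h
    · exact mulfld hi1 hi3 hK hu hFu q1 g1 ha hx h
    · exact shlm hi1 hi3 hK hu hFu q2 ha hx h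
  · intro a x ha hx h
    unfold y3 at h
    rw [lor_testBit, lor_testBit, lor_testBit, lor_testBit, Bool.or_eq_true, Bool.or_eq_true,
      Bool.or_eq_true, Bool.or_eq_true] at h
    rcases h with h | (h | h) | (h | h)
    · exact (hs.h4 a x ha hx h).mono hmono
    · exact Or.inl (mulfld hi1 hi3 hK hu hFu q0 g3 ha hx h)
    · exact Or.inl (mulfld hi1 hi3 hK hu hFu q1 g2 ha hx h)
    · exact Or.inl (mulfld hi1 hi3 hK hu hFu q2 g1 ha hx h)
    · exact Or.inl (shlm hi1 hi3 hK hu hFu q3 ha hx h)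

end Pool.Agent.W_MP_818d98_co.Chk
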