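import Mathlib
import Pool.Agent.W_MP_818d98_co.Sound

namespace Pool.Agent.W_MP_818d98_co.Chk

/-- No situation on the stack is sound for `F`. -/
def NB (F : ℕ → ℕ → ℕ) : Stk → Prop
  | Stk.nil => True
  | Stk.cons kn r1 r2 r3 r4 rest =>
      ¬ Sound F kn (pl r1) (pl r2) (pl r3) (pl r4) ∧ NB F rest

theorem brec_true {x y b : Bool} (h : @Bool.rec (fun _ => Bool) x y b = true) :
    (b = false ∧ x = true) ∨ (b = true ∧ y = true) := by
  cases b
  · exact Or.inl ⟨rfl, h⟩
  · exact Or.inr ⟨rfl, h⟩

theorem kids_sound {F : ℕ → ℕ → ℕ} {kn r1 r2 r3 r4 m0 m1 m2 m3 z c : ℕ} {k : Nat → Stk → Bool}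
    (hk : ∀ d st, k d st = true → NB F st) (n : ℕ) : ∀ (d s : ℕ) (st : Stk),
    kids kn r1 r2 r3 r4 m0 m1 m2 m3 z c k n d s st = true →
    NB F st ∧ ∀ u < 16, (Nat.lor z s).testBit (16 * u) = false →
      ¬ Sound F kn (Nat.lor (pl r1) (y0 m0 u)) (Nat.lor (pl r2) (y1 m0 m1 r1 u))
      (Nat.lor (pl r3) (y2 m0 m1 m2 r1 r2 u)) (Nat.lor (pl r4) (y3 m0 m1 m2 m3 r1 r2 r3 u)) := by
  induction n with
  | zero =>
    intro d s st h
    change @Bool.rec (fun _ => Bool) false (k d st) (Nat.beq (Nat.lor z s) ones) = true at h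
    rcases brec_true h with ⟨_, h2⟩ | ⟨h1, h2⟩
    · exact absurd h2 (by simp)
    · refine ⟨hk d st h2, ?_⟩
      intro u hu hf
      rw [Nat.eq_of_beq_eq_true h1, ones_testBit' hu] at hf
      exact absurd hf (by simp)
  | succ n ih =>
    intro d s st h
    have h' : kids kn r1 r2 r3 r4 m0 m1 m2 m3 z c k n (Nat.div d 16)
        (Nat.lor s (Nat.shiftLeft 1 (Nat.mul 16 (Nat.mod d 16))))
        (Stk.cons kn
          (mk (Nat.lor (pl r1) (y0 m0 (Nat.mod d 16))) (Nat.mul 4 c))
          (mk (Nat.lor (pl r2) (y1 m0 m1 r1 (Nat.mod d 16))) (Nat.add 1 (Nat.mul 4 c)))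
          (mk (Nat.lor (pl r3) (y2 m0 m1 m2 r1 r2 (Nat.mod d 16))) (Nat.add 2 (Nat.mul 4 c)))
          (mk (Nat.lor (pl r4) (y3 m0 m1 m2 m3 r1 r2 r3 (Nat.mod d 16))) (Nat.add 3 (Nat.mul 4 c)))
          st) = true := by
      unfold kids at h ⊢
      simp only [force_eq] at h ⊢
      exact h
    obtain ⟨h1, h2⟩ := ih _ _ _ h'
    obtain ⟨h3, h4⟩ := h1
    rw [pl_mk, pl_mk, pl_mk, pl_mk] at h3
    refine ⟨h4, ?_⟩
    intro u hu hf
    by_cases hud : u = Nat.mod d 16
    · rw [hud]; exact h3
    · apply h2 u hu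
      rw [lor_testBit, Bool.or_eq_false_iff] at hf
      rw [lor_testBit, lor_testBit, hf.1, hf.2]
      simp only [Bool.false_or]
      by_contra hcon
      have := one_shl_testBit ((Bool.not_eq_false _).mp hcon)
      change 16 * u = 16 * (Nat.mod d 16) at this
      exact hud (by omega)

theorem step_sound {F : ℕ → ℕ → ℕ} (hF : Good F) {inj : Bool}
    (hinj : inj = true → ∀ a < 16, ∀ b < 16, F 1 a = F 1 b → a = b)
    {k : Nat → Stk → Bool} (hk : ∀ d st, k d st = true → NB F st) (d c : ℕ) (st : Stk)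
    (h : step inj d c st k = true) : NB F st := by
  match st, h with
  | Stk.nil, h => exact absurd h (by simp [step])
  | Stk.cons kn r1 r2 r3 r4 rest, h =>
    unfold step at h
    simp only [force_eq] at h
    rcases brec_true h with ⟨_, h2⟩ | ⟨hb, h2⟩
    · exact absurd h2 (by simp)
    have hkn : kn.testBit (Nat.mod d 64) = false := by
      have h0 : Nat.land kn (Nat.shiftLeft 1 (Nat.mod d 64)) = 0 := Nat.eq_of_beq_eq_true hb
      have h1 : (Nat.land kn (Nat.shiftLeft 1 (Nat.mod d 64))).testBit (Nat.mod d 64) =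
          (kn.testBit (Nat.mod d 64) && (Nat.shiftLeft 1 (Nat.mod d 64)).testBit (Nat.mod d 64)) :=
        Nat.testBit_and _ _ _
      rw [h0, one_shl_testBit_self, Bool.and_true, Nat.zero_testBit] at h1
      exact h1.symm
    have hv : d % 16 < 16 := Nat.mod_lt _ (by norm_num)
    have ha64 : d % 64 < 64 := Nat.mod_lt _ (by norm_num)
    have hrest : ∀ (i : ℕ), 1 ≤ i → i ≤ 3 → d % 64 = 16 * i + d % 16 →
        ∀ m0 m1 m2 m3 z, (∀ (_ : Sound F kn (pl r1) (pl r2) (pl r3) (pl r4)),
          Quad F kn i (d % 16) m0 m1 m2 m3) →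
        (Sound F kn (pl r1) (pl r2) (pl r3) (pl r4) → ∀ u < 16, F i (d % 16) = u →
          z.testBit (16 * u) = true → False) →
        kids (Nat.lor kn (Nat.shiftLeft 1 (Nat.mod d 64))) r1 r2 r3 r4 m0 m1 m2 m3 z c k
          (Nat.mod (Nat.div d 64) 16) (Nat.div d 1024) 0 rest = true →
        ¬ Sound F kn (pl r1) (pl r2) (pl r3) (pl r4) ∧ NB F rest := by
      intro i hi1 hi3 hdi m0 m1 m2 m3 z hQ hz hkids
      obtain ⟨e1, e2⟩ := kids_sound hk _ _ _ _ hkids
      refine ⟨?_, e1⟩
      intro hs
      have hu : F i (d % 16) < 16 := hF.lt i _ hi1 hi3 hv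
      have hz' : (Nat.lor z 0).testBit (16 * F i (d % 16)) = false := by
        rw [lor_testBit, Nat.zero_testBit, Bool.or_false]
        by_contra hcon
        exact hz hs _ hu rfl (by simpa using hcon)
      apply e2 _ hu hz'
      have := update (v := d % 16) (u := F i (d % 16)) hs hi1 hi3 (hQ hs) hu rfl
      have h64 : Nat.mod d 64 = 16 * i + d % 16 := hdi
      rw [h64]
      exact this
    rcases brec_true h2 with ⟨hle31, h3⟩ | ⟨hle31, h3⟩
    · have hgt : ¬ (d % 64 ≤ 31) := by
        intro hcon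
        have := Nat.ble_eq_true_of_le hcon
        rw [show Nat.ble (Nat.mod d 64) 31 = Nat.ble (d % 64) 31 from rfl, this] at hle31
        exact absurd hle31 (by simp)
      rcases brec_true h3 with ⟨hle47, h4⟩ | ⟨hle47, h4⟩
      · -- letter 3
        have hgt' : ¬ (d % 64 ≤ 47) := by
          intro hcon
          have := Nat.ble_eq_true_of_le hcon
          rw [show Nat.ble (Nat.mod d 64) 47 = Nat.ble (d % 64) 47 from rfl, this] at hle47
          exact absurd hle47 (by simp)
        have hdi : d % 64 = 16 * 3 + d % 16 := by omega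
        refine hrest 3 (by norm_num) (by norm_num) hdi _ _ _ _ _ (fun hs => quad3 hs hv) ?_ h4
        intro hs u hu hFu hzu
        refine conflict hF hs (by norm_num) (by norm_num) ?_ (quad3 hs hv) hu hFu hzu
        rw [← hdi]; exact hkn
      · have hle : d % 64 ≤ 47 := Nat.le_of_ble_eq_true hle47
        have hdi : d % 64 = 16 * 2 + d % 16 := by omega
        refine hrest 2 (by norm_num) (by norm_num) hdi _ _ _ _ _ (fun hs => quad2 hs hv) ?_ h4
        intro hs u hu hFu hzu
        refine conflict hF hs (by norm_num) (by norm_num) ?_ (quad2 hs hv) hu hFu hzu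
        rw [← hdi]; exact hkn
    · have hle : d % 64 ≤ 31 := Nat.le_of_ble_eq_true hle31
      by_cases hge : 16 ≤ d % 64
      · have hdi : d % 64 = 16 * 1 + d % 16 := by omega
        refine hrest 1 (by norm_num) (by norm_num) hdi _ _ _ _ _ (fun hs => quad1 hs hv) ?_ h3
        intro hs u hu hFu hzu
        obtain ⟨y, hy, hzu⟩ := rows_testBit hzu
        cases inj with
        | false =>
          refine conflict hF hs (by norm_num) (by norm_num) ?_ (quad1 hs hv) hu hFu ?_
          · rw [← hdi]; exact hkn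
          · exact rows_testBit_mk hy hu hzu
        | true =>
          change (Nat.lor (winj r1) (w _ _ _ _ r1 r2 r3 r4)).testBit (16 * u + y) = true at hzu
          rw [lor_testBit, Bool.or_eq_true] at hzu
          rcases hzu with hzu | hzu
          · refine conflict_inj hs hv (hinj rfl) ?_ hu hFu ?_
            · rw [← hdi]; exact hkn
            · exact rows_testBit_mk hy hu hzu
          · refine conflict hF hs (by norm_num) (by norm_num) ?_ (quad1 hs hv) hu hFu ?_
            · rw [← hdi]; exact hkn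
            · exact rows_testBit_mk hy hu hzu
      · -- code below 16
        obtain ⟨e1, e2⟩ := kids_sound hk _ _ _ _ h3
        refine ⟨?_, e1⟩
        intro hs
        have := hs.kn0 (d % 64) (by omega)
        rw [show kn.testBit (d % 64) = false from hkn] at this
        exact absurd this (by simp)

theorem chunk_sound {F : ℕ → ℕ → ℕ} (hF : Good F) {inj : Bool}
    (hinj : inj = true → ∀ a < 16, ∀ b < 16, F 1 a = F 1 b → a = b) (f : ℕ) :
    ∀ (d c : ℕ) (st : Stk) (k : Nat → Stk → Bool), (∀ c st, k c st = true → NB F st) →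
    chunk inj f d c st k = true → NB F st := by
  induction f with
  | zero =>
    intro d c st k _ h
    exact absurd h (by simp [chunk])
  | succ f ih =>
    intro d c st k hk h
    have h' : @Bool.rec (fun _ => Bool)
      (step inj d c st fun d' st' => chunk inj f d' (Nat.succ c) st' k)
      (k c st) (Nat.ble d 1) = true := by
      unfold chunk at h ⊢
      simp only [force_eq] at h ⊢
      exact h
    rcases brec_true h' with ⟨_, h2⟩ | ⟨_, h2⟩
    · exact step_sound hF hinj (fun d' st' hd => ih d' _ st' k hk hd) d c st h2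
    · exact hk c st h2

theorem run_sound {F : ℕ → ℕ → ℕ} (hF : Good F) {inj : Bool}
    (hinj : inj = true → ∀ a < 16, ∀ b < 16, F 1 a = F 1 b → a = b) (l : List ℕ) :
    ∀ (c : ℕ) (st : Stk), run inj l c st = true → NB F st := by
  induction l with
  | nil =>
    intro c st h
    match st, h with
    | Stk.nil, _ => trivial
    | Stk.cons kn r1 r2 r3 r4 rest, h => exact absurd h (by simp [run, isNil])
  | cons n l ih =>
    intro c st h
    exact chunk_sound hF hinj 1000 n c st (fun c st => run inj l c st) (fun c st h => ih c st h) h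

end Pool.Agent.W_MP_818d98_co.Chk
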