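import Mathlib
import Pool.Agent.W_MP_818d98_co.RunSound

namespace Pool.Agent.W_MP_818d98_co.Chk

/-- known arcs and tables -/
structure Tab where
  kn : ℕ
  r1 : ℕ
  r2 : ℕ
  r3 : ℕ
  r4 : ℕ
deriving DecidableEq

def Tab.Sound (F : ℕ → ℕ → ℕ) (t : Tab) : Prop :=
  Chk.Sound F t.kn (pl t.r1) (pl t.r2) (pl t.r3) (pl t.r4)

def putQ (t : Tab) (i v u m0 m1 m2 m3 : ℕ) : Tab :=
  ⟨Nat.lor t.kn (Nat.shiftLeft 1 (16 * i + v)),
    mk (Nat.lor (pl t.r1) (y0 m0 u)) 0,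
    mk (Nat.lor (pl t.r2) (y1 m0 m1 t.r1 u)) 0,
    mk (Nat.lor (pl t.r3) (y2 m0 m1 m2 t.r1 t.r2 u)) 0,
    mk (Nat.lor (pl t.r4) (y3 m0 m1 m2 m3 t.r1 t.r2 t.r3 u)) 0⟩

/-- add the arc `(i, v) ↦ u` -/
def put (t : Tab) (x : ℕ × ℕ × ℕ) : Tab :=
  if x.1 = 1 then
    putQ t 1 x.2.1 x.2.2 (Nat.shiftLeft 1 (Nat.mul 16 x.2.1)) (msk t.r1 x.2.1) (msk t.r2 x.2.1)
      (msk t.r3 x.2.1)
  else if x.1 = 2 then
    putQ t 2 x.2.1 x.2.2 0 (Nat.shiftLeft 1 (Nat.mul 16 x.2.1)) (msk t.r1 x.2.1)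
      (msk t.r2 x.2.1)
  else
    putQ t 3 x.2.1 x.2.2 0 0 (Nat.shiftLeft 1 (Nat.mul 16 x.2.1)) (msk t.r1 x.2.1)

theorem putQ_sound {F : ℕ → ℕ → ℕ} {t : Tab} {i v u m0 m1 m2 m3 : ℕ} (ht : t.Sound F)
    (hi1 : 1 ≤ i) (hi3 : i ≤ 3) (hq : Quad F t.kn i v m0 m1 m2 m3) (hu : u < 16)
    (hFu : F i v = u) : (putQ t i v u m0 m1 m2 m3).Sound F := by
  have h := update ht hi1 hi3 hq hu hFu
  unfold Tab.Sound putQ
  simp only [pl_mk]
  exact h

theorem put_sound {F : ℕ → ℕ → ℕ} {t : Tab} {x : ℕ × ℕ × ℕ} (ht : t.Sound F)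
    (hi1 : 1 ≤ x.1) (hi3 : x.1 ≤ 3) (hv : x.2.1 < 16) (hu : x.2.2 < 16)
    (hFu : F x.1 x.2.1 = x.2.2) : (put t x).Sound F := by
  unfold put
  by_cases h1 : x.1 = 1
  · rw [if_pos h1]
    exact putQ_sound ht (by norm_num) (by norm_num) (quad1 ht hv) hu (h1 ▸ hFu)
  · by_cases h2 : x.1 = 2
    · rw [if_neg h1, if_pos h2]
      exact putQ_sound ht (by norm_num) (by norm_num) (quad2 ht hv) hu (h2 ▸ hFu)
    · rw [if_neg h1, if_neg h2]
      have h3 : x.1 = 3 := by omega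
      exact putQ_sound ht (by norm_num) (by norm_num) (quad3 ht hv) hu (h3 ▸ hFu)

def init : Tab := ⟨65535, mk diag 0, mk diag 0, mk diag 0, mk diag 0⟩

theorem init_sound (F : ℕ → ℕ → ℕ) : init.Sound F := by
  unfold Tab.Sound init
  simp only [pl_mk]
  refine ⟨?_, ?_, ?_, ?_, ?_⟩
  · intro a ha
    rw [low_testBit]
    simpa using ha
  · intro a x ha hx h
    have := diag_testBit ha hx h
    subst this
    exact (Reach_self F _ a).le (by norm_num)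
  · intro a x ha hx h
    have := diag_testBit ha hx h
    subst this
    exact (Reach_self F _ a).le (by norm_num)
  · intro a x ha hx h
    have := diag_testBit ha hx h
    subst this
    exact (Reach_self F _ a).le (by norm_num)
  · intro a x ha hx h
    have := diag_testBit ha hx h
    subst this
    exact Or.inl ((Reach_self F _ a).le (by norm_num))

def tab (arcs : List (ℕ × ℕ × ℕ)) : Tab := arcs.foldl put init

def OkArc (x : ℕ × ℕ × ℕ) : Prop := 1 ≤ x.1 ∧ x.1 ≤ 3 ∧ x.2.1 < 16 ∧ x.2.2 < 16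

instance (x : ℕ × ℕ × ℕ) : Decidable (OkArc x) := by unfold OkArc; infer_instance

theorem foldl_sound {F : ℕ → ℕ → ℕ} : ∀ (arcs : List (ℕ × ℕ × ℕ)) (t : Tab), t.Sound F →
    (∀ x ∈ arcs, OkArc x) → (∀ x ∈ arcs, F x.1 x.2.1 = x.2.2) → (arcs.foldl put t).Sound F
  | [], _, ht, _, _ => ht
  | x :: arcs, t, ht, h1, h2 => by
    have hx := h1 x List.mem_cons_self
    exact foldl_sound arcs (put t x)
      (put_sound ht hx.1 hx.2.1 hx.2.2.1 hx.2.2.2 (h2 x List.mem_cons_self))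
      (fun y hy => h1 y (List.mem_cons_of_mem _ hy)) (fun y hy => h2 y (List.mem_cons_of_mem _ hy))

theorem tab_sound {F : ℕ → ℕ → ℕ} (arcs : List (ℕ × ℕ × ℕ)) (h1 : ∀ x ∈ arcs, OkArc x)
    (h2 : ∀ x ∈ arcs, F x.1 x.2.1 = x.2.2) : (tab arcs).Sound F :=
  foldl_sound arcs init (init_sound F) h1 h2

theorem sound_forb {F : ℕ → ℕ → ℕ} {kn p1 p2 p3 p4 : ℕ} (hs : Sound F kn p1 p2 p3 p4)
    (h : ∀ l, Ok l → l.sum ≤ 4 → ep F 15 l ≠ 0) :
    Sound F kn p1 p2 p3 (Nat.lor p4 (Nat.shiftLeft 1 240)) := by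
  refine ⟨hs.kn0, hs.h1, hs.h2, hs.h3, ?_⟩
  intro a x ha hx hb
  rw [lor_testBit, Bool.or_eq_true] at hb
  rcases hb with hb | hb
  · exact hs.h4 a x ha hx hb
  · have := one_shl_testBit hb
    have ha' : a = 15 := by omega
    have hx' : x = 0 := by omega
    subst ha' hx'
    exact Or.inr h

/-- The arcs of the spanning tree of a base vertex. -/
def baseArcs : List (ℕ × ℕ × ℕ) :=
  [(1, 0, 1), (1, 1, 2), (2, 0, 3), (1, 2, 4), (2, 1, 5), (1, 3, 6), (3, 0, 7), (1, 4, 8),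
    (2, 2, 9), (1, 5, 10), (3, 1, 11), (1, 6, 12), (2, 3, 13), (1, 7, 14)]

/-- A certificate refutes the situation with the arcs `baseArcs ++ extra`. -/
theorem refute {F : ℕ → ℕ → ℕ} (hF : Good F) (inj : Bool)
    (hinj : inj = true → ∀ a < 16, ∀ b < 16, F 1 a = F 1 b → a = b)
    (arcs : List (ℕ × ℕ × ℕ)) (h1 : ∀ x ∈ arcs, OkArc x)
    (h2 : ∀ x ∈ arcs, F x.1 x.2.1 = x.2.2) (kn r1 r2 r3 r4 : ℕ) (dat : List ℕ)
    (htab : (tab arcs).kn = kn ∧ pl (tab arcs).r1 = pl r1 ∧ pl (tab arcs).r2 = pl r2 ∧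
      pl (tab arcs).r3 = pl r3 ∧ pl (tab arcs).r4 = pl r4)
    (hrun : run inj dat 1 (Stk.cons kn r1 r2 r3 r4 Stk.nil) = true) : False := by
  have h := tab_sound arcs h1 h2
  unfold Tab.Sound at h
  rw [htab.1, htab.2.1, htab.2.2.1, htab.2.2.2.1, htab.2.2.2.2] at h
  exact (run_sound hF hinj dat 1 _ hrun).1 h

/-- The same with the information that `0` is not reached from `15`. -/
theorem refute_forb {F : ℕ → ℕ → ℕ} (hF : Good F)
    (arcs : List (ℕ × ℕ × ℕ)) (h1 : ∀ x ∈ arcs, OkArc x)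
    (h2 : ∀ x ∈ arcs, F x.1 x.2.1 = x.2.2) (kn r1 r2 r3 r4 : ℕ) (dat : List ℕ)
    (hforb : ∀ l, Ok l → l.sum ≤ 4 → ep F 15 l ≠ 0)
    (htab : (tab arcs).kn = kn ∧ pl (tab arcs).r1 = pl r1 ∧ pl (tab arcs).r2 = pl r2 ∧
      pl (tab arcs).r3 = pl r3 ∧ Nat.lor (pl (tab arcs).r4) (Nat.shiftLeft 1 240) = pl r4)
    (hrun : run false dat 1 (Stk.cons kn r1 r2 r3 r4 Stk.nil) = true) : False := by
  have h := tab_sound arcs h1 h2
  unfold Tab.Sound at h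
  have h' := sound_forb h hforb
  rw [htab.1, htab.2.1, htab.2.2.1, htab.2.2.2.1, htab.2.2.2.2] at h'
  exact (run_sound hF (fun h => absurd h (by simp)) dat 1 _ hrun).1 h'

end Pool.Agent.W_MP_818d98_co.Chk
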